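import Pool.Agent.H445Z.CubSt

/-! Multiparameter square function inequality for sign-symmetric differences. -/

namespace Pool.Agent.H711Z.CubBdg

open Finset Pool.Agent.H445Z.Cub

lemma odd_part (k : ℕ) : ∃ D : ℝ, 0 ≤ D ∧ ∀ s x y : ℝ, 0 ≤ s → 0 ≤ x + y → 0 ≤ x - y →
    y ^ 2 ≤ 4 * s * x → y * ((x + y) ^ k - (x - y) ^ k) ≤ D * s * x ^ k := by
  induction k with
  | zero => exact ⟨0, le_rfl, fun s x y _ _ _ _ => by simp⟩
  | succ k ih =>
    obtain ⟨D, hD, h⟩ := ih
    refine ⟨D + 8 * 2 ^ k, by positivity, fun s x y hs h1 h2 h3 => ?_⟩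
    have hx : 0 ≤ x := by linarith
    have e1 : (x + y) ^ k ≤ (2 * x) ^ k := pow_le_pow_left₀ h1 (by linarith) k
    have e2 : (x - y) ^ k ≤ (2 * x) ^ k := pow_le_pow_left₀ h2 (by linarith) k
    have p1 : 0 ≤ (x + y) ^ k := pow_nonneg h1 k
    have p2 : 0 ≤ (x - y) ^ k := pow_nonneg h2 k
    have e3 : y * ((x + y) ^ (k + 1) - (x - y) ^ (k + 1)) =
        x * (y * ((x + y) ^ k - (x - y) ^ k)) + y ^ 2 * ((x + y) ^ k + (x - y) ^ k) := by ring
    have e4 : x * (y * ((x + y) ^ k - (x - y) ^ k)) ≤ x * (D * s * x ^ k) :=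
      mul_le_mul_of_nonneg_left (h s x y hs h1 h2 h3) hx
    have e5 : y ^ 2 * ((x + y) ^ k + (x - y) ^ k) ≤ (4 * s * x) * (2 * (2 * x) ^ k) :=
      mul_le_mul h3 (by linarith) (by linarith) (by positivity)
    rw [e3]
    calc _ ≤ x * (D * s * x ^ k) + (4 * s * x) * (2 * (2 * x) ^ k) := add_le_add e4 e5
      _ = (D + 8 * 2 ^ k) * s * x ^ (k + 1) := by rw [mul_pow]; ring

lemma even_part (k : ℕ) : ∃ E : ℝ, 0 ≤ E ∧ ∀ s x y : ℝ, 0 ≤ s → 0 ≤ x + y → 0 ≤ x - y →
    y ^ 2 ≤ 4 * s * x →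
    (x + y) ^ (k + 1) + (x - y) ^ (k + 1) ≤ 2 * x ^ (k + 1) + E * s * x ^ k := by
  induction k with
  | zero => exact ⟨0, le_rfl, fun s x y _ _ _ _ => by simp; linarith⟩
  | succ k ih =>
    obtain ⟨E, hE, h⟩ := ih
    obtain ⟨D, hD, hd⟩ := odd_part (k + 1)
    refine ⟨E + D, by positivity, fun s x y hs h1 h2 h3 => ?_⟩
    have hx : 0 ≤ x := by linarith
    have e3 : (x + y) ^ (k + 1 + 1) + (x - y) ^ (k + 1 + 1) =
        x * ((x + y) ^ (k + 1) + (x - y) ^ (k + 1)) +
          y * ((x + y) ^ (k + 1) - (x - y) ^ (k + 1)) := by ring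
    have e4 := mul_le_mul_of_nonneg_left (h s x y hs h1 h2 h3) hx
    have e5 := hd s x y hs h1 h2 h3
    rw [e3]
    calc _ ≤ x * (2 * x ^ (k + 1) + E * s * x ^ k) + D * s * x ^ (k + 1) := add_le_add e4 e5
      _ = _ := by ring

lemma pow_step (k : ℕ) (Q s : ℝ) (hQ : 0 ≤ Q) (hs : 0 ≤ s) :
    (Q + s) ^ (k + 1) ≤ Q ^ (k + 1) + (k + 1) * s * (Q + s) ^ k := by
  induction k with
  | zero => simp
  | succ k ih =>
    have hx : 0 ≤ Q + s := by linarith
    have e1 : Q ^ (k + 1) ≤ (Q + s) ^ (k + 1) := pow_le_pow_left₀ hQ (by linarith) _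
    have e2 := mul_le_mul_of_nonneg_left ih hx
    have e3 := mul_le_mul_of_nonneg_left e1 hs
    calc (Q + s) ^ (k + 1 + 1) = (Q + s) * (Q + s) ^ (k + 1) := by ring
      _ ≤ (Q + s) * (Q ^ (k + 1) + (k + 1) * s * (Q + s) ^ k) := e2
      _ = Q ^ (k + 1 + 1) + s * Q ^ (k + 1) + (k + 1) * s * (Q + s) ^ (k + 1) := by ring
      _ ≤ Q ^ (k + 1 + 1) + s * (Q + s) ^ (k + 1) + (k + 1) * s * (Q + s) ^ (k + 1) := by linarith
      _ = _ := by push_cast; ring

lemma mid_conv (k : ℕ) (x y : ℝ) (h1 : 0 ≤ x + y) (h2 : 0 ≤ x - y) :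
    2 * x ^ k ≤ (x + y) ^ k + (x - y) ^ k := by
  have h := (convexOn_pow (𝕜 := ℝ) k).2 (Set.mem_Ici.2 h1) (Set.mem_Ici.2 h2)
    (show (0 : ℝ) ≤ 1 / 2 by norm_num) (show (0 : ℝ) ≤ 1 / 2 by norm_num) (by norm_num)
  simp only [smul_eq_mul] at h
  have e : 1 / 2 * (x + y) + 1 / 2 * (x - y) = x := by ring
  rw [e] at h
  linarith

lemma abs_small (Q s y : ℝ) (hQ : 0 ≤ Q) (hs : 0 ≤ s) (h : y ^ 2 ≤ 4 * Q * s) :
    0 ≤ Q + s + y ∧ 0 ≤ Q + s - y ∧ y ^ 2 ≤ 4 * s * (Q + s) := by
  have h1 : y ^ 2 ≤ (Q + s) ^ 2 := by nlinarith [sq_nonneg (Q - s)]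
  have h2 := abs_le_of_sq_le_sq' h1 (by linarith)
  refine ⟨by linarith [h2.1], by linarith [h2.2], ?_⟩
  nlinarith [mul_nonneg hs hs]

/-- The abstract one-parameter inequality. -/
lemma abstract_one (m : ℕ) : ∃ C : ℝ, 0 < C ∧ ∀ (Ω : Type) [Fintype Ω]
    (Q s y : ℕ → Ω → ℝ) (τ : ℕ → Equiv.Perm Ω),
    (∀ x, Q 0 x = 0) → (∀ n x, Q (n + 1) x = Q n x + s n x + y n x) →
    (∀ n x, 0 ≤ Q n x) → (∀ n x, 0 ≤ s n x) → (∀ n x, y n x ^ 2 ≤ 4 * Q n x * s n x) →
    (∀ n x, Q n (τ n x) = Q n x) → (∀ a n, a ≤ n → ∀ x, s a (τ n x) = s a x) →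
    (∀ n x, y n (τ n x) = - y n x) →
    ∀ N, ∑ x, Q N x ^ (m + 1) ≤ C * ∑ x, (∑ a ∈ range N, s a x) ^ (m + 1) := by
  obtain ⟨E, hE, hEE⟩ := even_part m
  set C : ℝ := E / 2 + (m + 1) with hC
  have hCpos : 0 < C := by positivity
  refine ⟨(2 * C) ^ (m + 1), by positivity, ?_⟩
  intro Ω _ Q s y τ h0 hstep hQ hs hy hQτ hsτ hyτ N
  -- symmetrisation
  have sym : ∀ (n k : ℕ) (g : Ω → ℝ), (∀ x, g (τ n x) = g x) →
      2 * ∑ x, g x * Q (n + 1) x ^ k =
        ∑ x, g x * ((Q n x + s n x + y n x) ^ k + (Q n x + s n x - y n x) ^ k) := by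
    intro n k g hg
    have e1 : ∑ x, g x * Q (n + 1) x ^ k = ∑ x, g (τ n x) * Q (n + 1) (τ n x) ^ k :=
      (Equiv.sum_comp (τ n) (fun x => g x * Q (n + 1) x ^ k)).symm
    have e2 : ∑ x, g (τ n x) * Q (n + 1) (τ n x) ^ k =
        ∑ x, g x * (Q n x + s n x - y n x) ^ k := by
      refine sum_congr rfl fun x _ => ?_
      rw [hg, hstep, hQτ, hsτ n n le_rfl, hyτ, sub_eq_add_neg]
    have e3 : ∑ x, g x * Q (n + 1) x ^ k = ∑ x, g x * (Q n x + s n x + y n x) ^ k := by
      refine sum_congr rfl fun x _ => ?_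
      rw [hstep]
    rw [two_mul]
    nth_rewrite 1 [e3]
    rw [e1, e2, ← sum_add_distrib]
    refine sum_congr rfl fun x _ => by ring
  have mono1 : ∀ (n : ℕ) (g : Ω → ℝ), (∀ x, 0 ≤ g x) → (∀ x, g (τ n x) = g x) →
      ∑ x, g x * (Q n x + s n x) ^ m ≤ ∑ x, g x * Q (n + 1) x ^ m := by
    intro n g hg0 hg
    have e1 := sym n m g hg
    have e2 : 2 * ∑ x, g x * (Q n x + s n x) ^ m ≤
        ∑ x, g x * ((Q n x + s n x + y n x) ^ m + (Q n x + s n x - y n x) ^ m) := by
      rw [mul_sum]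
      refine sum_le_sum fun x _ => ?_
      obtain ⟨a1, a2, _⟩ := abs_small _ _ _ (hQ n x) (hs n x) (hy n x)
      have := mul_le_mul_of_nonneg_left (mid_conv m _ _ a1 a2) (hg0 x)
      linarith
    linarith
  have mono2 : ∀ a n : ℕ, a < n →
      ∑ x, s a x * (Q a x + s a x) ^ m ≤ ∑ x, s a x * Q n x ^ m := by
    intro a n han
    induction n, han using Nat.le_induction with
    | base => exact mono1 a (s a) (hs a) (hsτ a a le_rfl)
    | succ n hn ih =>
      refine ih.trans (le_trans ?_ (mono1 n (s a) (hs a) (hsτ a n (by omega))))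
      refine sum_le_sum fun x _ => mul_le_mul_of_nonneg_left ?_ (hs a x)
      exact pow_le_pow_left₀ (hQ n x) (by linarith [hs n x]) m
  have step : ∀ n : ℕ, ∑ x, Q (n + 1) x ^ (m + 1) ≤
      ∑ x, Q n x ^ (m + 1) + C * ∑ x, s n x * (Q n x + s n x) ^ m := by
    intro n
    have e1 := sym n (m + 1) (fun _ => 1) (fun _ => rfl)
    simp only [one_mul] at e1
    have e2 : ∑ x, ((Q n x + s n x + y n x) ^ (m + 1) + (Q n x + s n x - y n x) ^ (m + 1)) ≤
        2 * (∑ x, Q n x ^ (m + 1) + C * ∑ x, s n x * (Q n x + s n x) ^ m) := by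
      rw [mul_sum, ← sum_add_distrib, mul_sum]
      refine sum_le_sum fun x _ => ?_
      obtain ⟨a1, a2, a3⟩ := abs_small _ _ _ (hQ n x) (hs n x) (hy n x)
      have b1 := hEE (s n x) _ _ (hs n x) a1 a2 a3
      have b2 := pow_step m _ _ (hQ n x) (hs n x)
      calc _ ≤ 2 * (Q n x + s n x) ^ (m + 1) + E * s n x * (Q n x + s n x) ^ m := b1
        _ ≤ 2 * (Q n x ^ (m + 1) + (m + 1) * s n x * (Q n x + s n x) ^ m) +
            E * s n x * (Q n x + s n x) ^ m := by linarith
        _ = _ := by rw [hC]; ring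
    linarith
  have tele : ∀ n : ℕ, ∑ x, Q n x ^ (m + 1) ≤
      C * ∑ a ∈ range n, ∑ x, s a x * (Q a x + s a x) ^ m := by
    intro n
    induction n with
    | zero => simp [h0]
    | succ n ih =>
      rw [sum_range_succ, mul_add]
      linarith [step n]
  have fin1 : ∑ x, Q N x ^ (m + 1) ≤ ∑ x, C * (∑ a ∈ range N, s a x) * Q N x ^ m := by
    refine (tele N).trans ?_
    have e1 : ∑ a ∈ range N, ∑ x, s a x * (Q a x + s a x) ^ m ≤
        ∑ a ∈ range N, ∑ x, s a x * Q N x ^ m :=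
      sum_le_sum fun a ha => mono2 a N (mem_range.1 ha)
    refine (mul_le_mul_of_nonneg_left e1 hCpos.le).trans (le_of_eq ?_)
    rw [sum_comm, mul_sum]
    refine sum_congr rfl fun x _ => ?_
    rw [← sum_mul, mul_assoc]
  have pt : ∀ x, C * (∑ a ∈ range N, s a x) * Q N x ^ m ≤
      Q N x ^ (m + 1) / 2 + (2 * C) ^ (m + 1) / 2 * (∑ a ∈ range N, s a x) ^ (m + 1) := by
    intro x
    have hS : 0 ≤ ∑ a ∈ range N, s a x := sum_nonneg fun a _ => hs a x
    generalize (∑ a ∈ range N, s a x) = S at hS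
    have hq := hQ N x
    generalize Q N x = q at hq
    rcases le_total q (2 * C * S) with h | h
    · have e1 : q ^ m ≤ (2 * C * S) ^ m := pow_le_pow_left₀ hq h m
      have e2 := mul_le_mul_of_nonneg_left e1 (show 0 ≤ C * S by positivity)
      have e3 : C * S * (2 * C * S) ^ m = (2 * C) ^ (m + 1) / 2 * S ^ (m + 1) := by
        rw [mul_pow]; ring
      have e4 : 0 ≤ q ^ (m + 1) / 2 := by positivity
      linarith
    · have e1 := mul_le_mul_of_nonneg_right h (pow_nonneg hq m)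
      have e2 : 0 ≤ (2 * C) ^ (m + 1) / 2 * S ^ (m + 1) := by positivity
      have e3 : q * q ^ m = q ^ (m + 1) := by ring
      linarith
  have fin2 := fin1.trans (sum_le_sum fun x _ => pt x)
  rw [sum_add_distrib, ← sum_div, ← mul_sum] at fin2
  linarith

/-- The vector-valued one-parameter inequality. -/
lemma vector_one (m : ℕ) : ∃ C : ℝ, 0 < C ∧ ∀ (Ω K : Type) [Fintype Ω]
    (H : Finset K) (w : K → ℕ → Ω → ℝ) (σ : ℕ → Equiv.Perm Ω),
    (∀ h a a', a < a' → ∀ x, w h a (σ a' x) = w h a x) →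
    (∀ h a, 1 ≤ a → ∀ x, w h a (σ a x) = - w h a x) →
    ∀ N, ∑ x, (∑ h ∈ H, (∑ a ∈ range N, w h a x) ^ 2) ^ (m + 1) ≤
      C * ∑ x, (∑ a ∈ range N, ∑ h ∈ H, w h a x ^ 2) ^ (m + 1) := by
  obtain ⟨C, hC, hh⟩ := abstract_one m
  refine ⟨C, hC, ?_⟩
  intro Ω K _ H w σ h1 h2 N
  have inv : ∀ h n x, ∑ a ∈ range n, w h a ((if n = 0 then 1 else σ n : Equiv.Perm Ω) x) =
      ∑ a ∈ range n, w h a x := by
    intro h n x
    refine sum_congr rfl fun a ha => ?_
    have := mem_range.1 ha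
    rw [if_neg (by omega)]
    exact h1 h a n this x
  refine hh Ω (fun n x => ∑ h ∈ H, (∑ a ∈ range n, w h a x) ^ 2)
    (fun n x => ∑ h ∈ H, w h n x ^ 2)
    (fun n x => 2 * ∑ h ∈ H, (∑ a ∈ range n, w h a x) * w h n x)
    (fun n => if n = 0 then 1 else σ n) ?_ ?_ ?_ ?_ ?_ ?_ ?_ ?_ N
  · intro x; simp
  · intro n x
    rw [mul_sum, ← sum_add_distrib, ← sum_add_distrib]
    refine sum_congr rfl fun h _ => ?_
    rw [sum_range_succ]; ring
  · intro n x; positivity
  · intro n x; positivity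
  · intro n x
    have := sum_mul_sq_le_sq_mul_sq H (fun h => ∑ a ∈ range n, w h a x) (fun h => w h n x)
    rw [mul_pow]
    linarith
  · intro n x
    exact sum_congr rfl fun h _ => by rw [inv]
  · intro a n han x
    refine sum_congr rfl fun h _ => ?_
    by_cases hn : n = 0
    · simp [hn]
    · rw [if_neg hn]
      rcases han.lt_or_eq with hl | hl
      · rw [h1 h a n hl]
      · subst hl
        rw [h2 h a (by omega), neg_sq]
  · intro n x
    by_cases hn : n = 0
    · simp [hn]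
    · rw [← mul_neg, ← sum_neg_distrib]
      congr 1
      refine sum_congr rfl fun h _ => ?_
      rw [inv, if_neg hn, h2 h n (by omega), mul_neg]

lemma fiber_sq {I K : Type} [DecidableEq K] (T : Finset I) (H : Finset K) (f : I → K) (v : I → ℝ)
    (hf : ∀ j ∈ T, f j ∈ H) :
    ∑ h ∈ H, (∑ j ∈ T, if f j = h then v j else 0) ^ 2 =
      ∑ j ∈ T, ∑ j' ∈ T, if f j = f j' then v j * v j' else 0 := by
  simp only [sq, sum_mul_sum]
  rw [sum_comm]
  refine sum_congr rfl fun j hj => ?_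
  rw [sum_comm]
  refine sum_congr rfl fun j' _ => ?_
  rw [sum_eq_single (f j)]
  · by_cases h : f j = f j'
    · simp [h]
    · simp [h, Ne.symm h]
  · intro h _ hne
    simp [Ne.symm hne]
  · intro h
    exact absurd (hf j hj) h

theorem thm_bdg : S_bdg := by
  classical
  intro d k hk
  obtain ⟨m, rfl⟩ : ∃ m, k = m + 1 := ⟨k - 1, by omega⟩
  obtain ⟨C, hC, hh⟩ := vector_one m
  refine ⟨C ^ d, by positivity, ?_⟩
  intro ι Ω I _ _ hcard σ T b u hinj h1 h2
  let pr : Finset ι → I → ι → ℕ := fun P j e => if e ∈ P then b j e else 0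
  let B : Finset ι → Ω → ℝ := fun P x =>
    ∑ j ∈ T, ∑ j' ∈ T, if pr P j = pr P j' then u j x * u j' x else 0
  have step : ∀ (P : Finset ι) (c : ι),
      ∑ x, B P x ^ (m + 1) ≤ C * ∑ x, B (insert c P) x ^ (m + 1) := by
    intro P c
    obtain ⟨N, hN⟩ : ∃ N : ℕ, ∀ j ∈ T, b j c < N :=
      ⟨T.sup (fun j => b j c) + 1, fun j hj => Nat.lt_succ_of_le (le_sup (f := fun j => b j c) hj)⟩
    have key := hh Ω (ι → ℕ) (T.image (pr P))
      (fun h a x => ∑ j ∈ T, if (b j c, pr P j) = (a, h) then u j x else 0) (σ c) ?_ ?_ N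
    · convert key using 3 with x _ x _
      · congr 1
        simp only [B]
        rw [← fiber_sq T (T.image (pr P)) (pr P) (fun j => u j x)
          (fun j hj => mem_image_of_mem _ hj)]
        refine sum_congr rfl fun h _ => ?_
        congr 1
        rw [sum_comm]
        refine sum_congr rfl fun j hj => ?_
        rw [sum_eq_single (b j c)]
        · simp
        · intro a _ hne
          simp [Ne.symm hne]
        · intro hne
          exact absurd (mem_range.2 (hN j hj)) hne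
      · congr 1
        rw [← sum_product' (range N) (T.image (pr P))
          (fun a h => (∑ j ∈ T, if (b j c, pr P j) = (a, h) then u j x else 0) ^ 2)]
        rw [fiber_sq T (range N ×ˢ T.image (pr P)) (fun j => (b j c, pr P j)) (fun j => u j x)
          (fun j hj => mem_product.2 ⟨mem_range.2 (hN j hj), mem_image_of_mem _ hj⟩)]
        simp only [B]
        refine sum_congr rfl fun j _ => sum_congr rfl fun j' _ => ?_
        have : (pr (insert c P) j = pr (insert c P) j') ↔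
            ((b j c, pr P j) = (b j' c, pr P j')) := by
          simp only [pr, Prod.mk.injEq, funext_iff, mem_insert]
          constructor
          · intro h
            refine ⟨by simpa using h c, fun e => ?_⟩
            by_cases he : e ∈ P
            · simpa [he] using h e
            · simp [he]
          · rintro ⟨h, h'⟩ e
            by_cases hec : e = c
            · simp [hec, h]
            · simpa [hec] using h' e
        simp only [this]
    · intro h a a' haa x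
      refine sum_congr rfl fun j hj => ?_
      split_ifs with hc
      · have : b j c = a := congrArg Prod.fst hc
        exact h1 j hj c a' (by omega) x
      · rfl
    · intro h a ha x
      rw [← sum_neg_distrib]
      refine sum_congr rfl fun j hj => ?_
      split_ifs with hc
      · have : b j c = a := congrArg Prod.fst hc
        rw [← this]
        exact h2 j hj c (by omega) x
      · simp
  have all : ∀ P : Finset ι, ∑ x, B ∅ x ^ (m + 1) ≤ C ^ P.card * ∑ x, B P x ^ (m + 1) := by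
    intro P
    induction P using Finset.induction_on with
    | empty => simp
    | insert c P hc ih =>
      rw [card_insert_of_notMem hc, pow_succ, mul_assoc]
      exact ih.trans (mul_le_mul_of_nonneg_left (step P c) (by positivity))
  have fin := all univ
  rw [card_univ, hcard] at fin
  have e0 : ∀ x, B ∅ x = (∑ j ∈ T, u j x) ^ 2 := by
    intro x
    simp only [B, pr, sq, sum_mul_sum]
    simp
  have e1 : ∀ x, B univ x = ∑ j ∈ T, u j x ^ 2 := by
    intro x
    simp only [B]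
    refine sum_congr rfl fun j hj => ?_
    have hp : ∀ j, pr univ j = b j := fun j => by funext e; simp [pr]
    simp only [hp]
    rw [sum_eq_single j]
    · simp [sq]
    · intro j' hj' hne
      rw [if_neg]
      intro hb
      exact hne (hinj hj hj' hb).symm
    · intro h; exact absurd hj h
  simp only [e0, e1] at fin
  simpa only [pow_mul] using fin

end Pool.Agent.H711Z.CubBdg
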