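import Mathlib

/-!
Complete and elementary symmetric sums over monotone and strictly monotone tuples, Newton's
identities for them, and the estimate comparing them with the power of the first power sum.
-/

set_option autoImplicit false

namespace Pool.Agent.H711Z.Dombi

open Finset PowerSeries

/-- tuples of length `k` with entries below `T` -/
def tup (k T : ℕ) : Finset (Fin k → ℕ) := Fintype.piFinset (fun _ => range T)

lemma mem_tup {k T : ℕ} {a : Fin k → ℕ} : a ∈ tup k T ↔ ∀ j, a j < T := by
  simp [tup]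

open Classical in
/-- complete homogeneous sum -/
noncomputable def hS (x : ℕ → ℂ) (k T : ℕ) : ℂ :=
  ∑ a ∈ (tup k T).filter (fun a => Monotone a), ∏ j, x (a j)

open Classical in
/-- elementary sum -/
noncomputable def eS (x : ℕ → ℂ) (k T : ℕ) : ℂ :=
  ∑ a ∈ (tup k T).filter (fun a => StrictMono a), ∏ j, x (a j)

/-- power sum -/
noncomputable def pS (x : ℕ → ℂ) (j T : ℕ) : ℂ := ∑ a ∈ range T, x a ^ j

lemma hS_zero (x : ℕ → ℂ) (T : ℕ) : hS x 0 T = 1 := by
  classical
  have h : (tup 0 T).filter (fun a => Monotone a) = {Fin.elim0} := by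
    ext a
    simp only [mem_filter, mem_tup, mem_singleton]
    constructor
    · intro _
      exact Subsingleton.elim _ _
    · intro _
      exact ⟨fun j => j.elim0, fun j => j.elim0⟩
  unfold hS
  convert (show ∑ a ∈ ({Fin.elim0} : Finset (Fin 0 → ℕ)), ∏ j, x (a j) = 1 by simp)

lemma eS_zero (x : ℕ → ℂ) (T : ℕ) : eS x 0 T = 1 := by
  classical
  have h : (tup 0 T).filter (fun a => StrictMono a) = {Fin.elim0} := by
    ext a
    simp only [mem_filter, mem_tup, mem_singleton]
    constructor
    · intro _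
      exact Subsingleton.elim _ _
    · intro _
      exact ⟨fun j => j.elim0, fun j => j.elim0⟩
  unfold eS
  convert (show ∑ a ∈ ({Fin.elim0} : Finset (Fin 0 → ℕ)), ∏ j, x (a j) = 1 by simp)

lemma tup_succ_zero (k : ℕ) : tup (k + 1) 0 = ∅ := by
  ext a
  simp only [mem_tup, notMem_empty, iff_false, not_forall]
  exact ⟨0, by simp⟩

lemma hS_succ_zero (x : ℕ → ℂ) (k : ℕ) : hS x (k + 1) 0 = 0 := by
  simp [hS, tup_succ_zero]

lemma eS_succ_zero (x : ℕ → ℂ) (k : ℕ) : eS x (k + 1) 0 = 0 := by
  simp [eS, tup_succ_zero]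

lemma hS_rec (x : ℕ → ℂ) (k T : ℕ) :
    hS x (k + 1) (T + 1) = hS x (k + 1) T + x T * hS x k (T + 1) := by
  classical
  unfold hS
  rw [← sum_filter_add_sum_filter_not _ (fun a : Fin (k + 1) → ℕ => a (Fin.last k) < T)]
  congr 1
  · apply sum_congr _ (fun _ _ => rfl)
    ext a
    simp only [mem_filter, mem_tup]
    constructor
    · rintro ⟨⟨_, h2⟩, h3⟩
      exact ⟨fun j => lt_of_le_of_lt (h2 (Fin.le_last j)) h3, h2⟩
    · rintro ⟨h1, h2⟩
      exact ⟨⟨fun j => Nat.lt_succ_of_lt (h1 j), h2⟩, h1 _⟩
  · rw [mul_sum]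
    symm
    apply sum_bij' (fun b _ => (Fin.snoc b T : Fin (k + 1) → ℕ)) (fun a _ => Fin.init a)
    · intro b hb
      simp only [mem_filter, mem_tup] at hb ⊢
      refine ⟨⟨fun j => ?_, ?_⟩, by simp⟩
      · refine Fin.lastCases ?_ (fun i => ?_) j
        · simp
        · simpa using hb.1 i
      · intro i j hij
        induction j using Fin.lastCases with
        | last =>
          induction i using Fin.lastCases with
          | last => exact le_rfl
          | cast i => simpa using Nat.lt_succ_iff.mp (hb.1 i)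
        | cast j =>
          induction i using Fin.lastCases with
          | last => exact absurd hij (not_le.mpr (Fin.castSucc_lt_last j))
          | cast i => simpa using hb.2 (Fin.castSucc_le_castSucc_iff.mp hij)
    · intro a ha
      simp only [mem_filter, mem_tup] at ha ⊢
      exact ⟨fun j => ha.1.1 _, fun i j hij => ha.1.2 (Fin.castSucc_le_castSucc_iff.mpr hij)⟩
    · intro b _
      simp
    · intro a ha
      simp only [mem_filter, mem_tup] at ha
      have : a (Fin.last k) = T := by
        have := ha.1.1 (Fin.last k)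
        omega
      rw [← this]
      simp
    · intro b _
      rw [Fin.prod_univ_castSucc]
      simp [mul_comm]

lemma eS_rec (x : ℕ → ℂ) (k T : ℕ) :
    eS x (k + 1) (T + 1) = eS x (k + 1) T + x T * eS x k T := by
  classical
  unfold eS
  rw [← sum_filter_add_sum_filter_not _ (fun a : Fin (k + 1) → ℕ => a (Fin.last k) < T)]
  congr 1
  · apply sum_congr _ (fun _ _ => rfl)
    ext a
    simp only [mem_filter, mem_tup]
    constructor
    · rintro ⟨⟨_, h2⟩, h3⟩
      exact ⟨fun j => lt_of_le_of_lt (h2.monotone (Fin.le_last j)) h3, h2⟩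
    · rintro ⟨h1, h2⟩
      exact ⟨⟨fun j => Nat.lt_succ_of_lt (h1 j), h2⟩, h1 _⟩
  · rw [mul_sum]
    symm
    apply sum_bij' (fun b _ => (Fin.snoc b T : Fin (k + 1) → ℕ)) (fun a _ => Fin.init a)
    · intro b hb
      simp only [mem_filter, mem_tup] at hb ⊢
      refine ⟨⟨fun j => ?_, ?_⟩, by simp⟩
      · refine Fin.lastCases ?_ (fun i => ?_) j
        · simp
        · simpa using Nat.lt_succ_of_lt (hb.1 i) |> Nat.lt_succ_iff.mp
      · intro i j hij
        induction j using Fin.lastCases with
        | last =>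
          induction i using Fin.lastCases with
          | last => exact absurd hij (lt_irrefl _)
          | cast i => simpa using hb.1 i
        | cast j =>
          induction i using Fin.lastCases with
          | last => exact absurd hij (not_lt.mpr (Fin.castSucc_lt_last j).le)
          | cast i => simpa using hb.2 (Fin.castSucc_lt_castSucc_iff.mp hij)
    · intro a ha
      simp only [mem_filter, mem_tup] at ha ⊢
      refine ⟨fun j => ?_, fun i j hij => ha.1.2 (Fin.castSucc_lt_castSucc_iff.mpr hij)⟩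
      have h1 := ha.1.1 (Fin.last k)
      have h2 : a (Fin.castSucc j) < a (Fin.last k) := ha.1.2 (Fin.castSucc_lt_last j)
      show a (Fin.castSucc j) < T
      omega
    · intro b _
      simp
    · intro a ha
      simp only [mem_filter, mem_tup] at ha
      have : a (Fin.last k) = T := by
        have := ha.1.1 (Fin.last k)
        omega
      rw [← this]
      simp
    · intro b _
      rw [Fin.prod_univ_castSucc]
      simp [mul_comm]

lemma geom_mul (c : ℂ) : (1 - C c * X) * (PowerSeries.mk fun j => c ^ (j + 1)) = C c := by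
  ext n
  rcases n with _ | n
  · simp [sub_mul, mul_assoc]
  · simp [sub_mul, mul_assoc, coeff_succ_X_mul, pow_succ', coeff_C]

lemma one_sub_ne (c : ℂ) : (1 - C c * X : ℂ⟦X⟧) ≠ 0 := by
  intro h
  have := congrArg (coeff 0) h
  simp at this

lemma newton_h (x : ℕ → ℂ) (T : ℕ) :
    d⁄dX ℂ (PowerSeries.mk fun k => hS x k T) =
      (PowerSeries.mk fun k => hS x k T) * PowerSeries.mk fun j => pS x (j + 1) T := by
  induction T with
  | zero =>
    have h1 : (PowerSeries.mk fun j => pS x (j + 1) 0) = 0 := by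
      ext n
      simp [pS]
    rw [h1, mul_zero]
    ext n
    simp [coeff_derivative, hS_succ_zero]
  | succ T ih =>
    have h1 : (PowerSeries.mk fun k => hS x k T) =
        (1 - C (x T) * X) * PowerSeries.mk fun k => hS x k (T + 1) := by
      ext n
      rcases n with _ | n
      · simp [sub_mul, mul_assoc, hS_zero]
      · simp [sub_mul, mul_assoc, coeff_succ_X_mul, hS_rec]
    have h2 : (PowerSeries.mk fun j => pS x (j + 1) (T + 1)) =
        (PowerSeries.mk fun j => pS x (j + 1) T) + PowerSeries.mk fun j => x T ^ (j + 1) := by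
      ext n
      simp [pS, sum_range_succ]
    have h3 := geom_mul (x T)
    rw [h1, Derivation.leibniz] at ih
    have h4 : d⁄dX ℂ (1 - C (x T) * X : ℂ⟦X⟧) = - C (x T) := by
      rw [map_sub, Derivation.leibniz]
      simp
    rw [h4] at ih
    simp only [smul_eq_mul] at ih
    apply mul_left_cancel₀ (one_sub_ne (x T))
    rw [h2]
    linear_combination ih - (PowerSeries.mk fun k => hS x k (T + 1)) * h3

lemma newton_e (x : ℕ → ℂ) (T : ℕ) :
    d⁄dX ℂ (PowerSeries.mk fun k => eS x k T) =
      (PowerSeries.mk fun k => eS x k T) *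
        PowerSeries.mk fun j => (-1) ^ j * pS x (j + 1) T := by
  induction T with
  | zero =>
    have h1 : (PowerSeries.mk fun j => (-1) ^ j * pS x (j + 1) 0) = 0 := by
      ext n
      simp [pS]
    rw [h1, mul_zero]
    ext n
    simp [coeff_derivative, eS_succ_zero]
  | succ T ih =>
    have h1 : (PowerSeries.mk fun k => eS x k (T + 1)) =
        (1 - C (- x T) * X) * PowerSeries.mk fun k => eS x k T := by
      ext n
      rcases n with _ | n
      · simp [sub_mul, mul_assoc, eS_zero]
      · simp [sub_mul, add_mul, mul_assoc, coeff_succ_X_mul, eS_rec]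
    have h2 : (PowerSeries.mk fun j => (-1) ^ j * pS x (j + 1) (T + 1)) =
        (PowerSeries.mk fun j => (-1) ^ j * pS x (j + 1) T) -
          PowerSeries.mk fun j => (- x T) ^ (j + 1) := by
      ext n
      simp only [pS, sum_range_succ, coeff_mk, map_sub]
      rw [neg_pow (x T)]
      ring
    have h3 := geom_mul (- x T)
    have h4 : d⁄dX ℂ (1 - C (- x T) * X : ℂ⟦X⟧) = - C (- x T) := by
      rw [map_sub, Derivation.leibniz]
      simp
    rw [h1, Derivation.leibniz, h4, h2, ih]
    simp only [smul_eq_mul]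
    linear_combination (PowerSeries.mk fun k => eS x k T) * h3

/-- the abstract estimate from Newton's recursion -/
lemma newton_est (u q : ℕ → ℂ) (M : ℝ) (K : ℕ) (hM : 1 ≤ M) (hu : u 0 = 1)
    (hrec : ∀ k, u (k + 1) * (k + 1) = ∑ p ∈ antidiagonal k, u p.1 * q p.2)
    (hq : ∀ j, j < K → ‖q j‖ ≤ M) :
    ∀ k, k ≤ K → ‖u k‖ ≤ M ^ k ∧
      ‖(k.factorial : ℂ) * u k - q 0 ^ k‖ * M ≤ ((k.factorial : ℝ) - 1) * M ^ k := by
  intro k
  induction k using Nat.strong_induction_on with
  | _ k ih =>
  intro hk
  rcases k with _ | k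
  · simp [hu]
  have hM0 : 0 ≤ M := by linarith
  have hterm : ∀ p ∈ antidiagonal k, ‖u p.1 * q p.2‖ ≤ M ^ (p.1 + 1) := by
    intro p hp
    have hp' := mem_antidiagonal.mp hp
    rw [norm_mul, pow_succ]
    exact mul_le_mul (ih p.1 (by omega) (by omega)).1 (hq p.2 (by omega)) (norm_nonneg _)
      (by positivity)
  constructor
  · have h1 : ‖u (k + 1) * (k + 1)‖ ≤ ∑ _p ∈ antidiagonal k, M ^ (k + 1) := by
      rw [hrec]
      refine (norm_sum_le _ _).trans (sum_le_sum fun p hp => (hterm p hp).trans ?_)
      have hp' := mem_antidiagonal.mp hp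
      exact pow_le_pow_right₀ hM (by omega)
    rw [sum_const, Nat.card_antidiagonal, norm_mul, nsmul_eq_mul] at h1
    have h2 : ‖((k : ℂ) + 1)‖ = ((k + 1 : ℕ) : ℝ) := by
      rw [← Nat.cast_succ, Complex.norm_natCast]
    rw [h2, mul_comm] at h1
    exact le_of_mul_le_mul_left h1 (by positivity)
  · have hmem : ((k, 0) : ℕ × ℕ) ∈ antidiagonal k := by simp
    have h1 : (((k + 1).factorial : ℕ) : ℂ) * u (k + 1) - q 0 ^ (k + 1) =
        ((k.factorial : ℂ) * u k - q 0 ^ k) * q 0 +
          (k.factorial : ℂ) * ∑ p ∈ (antidiagonal k).erase (k, 0), u p.1 * q p.2 := by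
      have h2 := hrec k
      rw [← add_sum_erase _ _ hmem] at h2
      rw [Nat.factorial_succ]
      push_cast
      linear_combination (k.factorial : ℂ) * h2
    have h3 : ‖∑ p ∈ (antidiagonal k).erase (k, 0), u p.1 * q p.2‖ ≤ k * M ^ k := by
      refine (norm_sum_le _ _).trans ?_
      have h4 : ∑ p ∈ (antidiagonal k).erase (k, 0), ‖u p.1 * q p.2‖ ≤
          ∑ _p ∈ (antidiagonal k).erase (k, 0), M ^ k := by
        refine sum_le_sum fun p hp => (hterm p (mem_of_mem_erase hp)).trans ?_
        have hp' := mem_antidiagonal.mp (mem_of_mem_erase hp)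
        have hp2 := ne_of_mem_erase hp
        apply pow_le_pow_right₀ hM
        by_contra hc
        apply hp2
        ext <;> simp <;> omega
      rw [sum_const, card_erase_of_mem hmem, Nat.card_antidiagonal, nsmul_eq_mul] at h4
      simpa using h4
    have h5 := (ih k (by omega) (by omega)).2
    have h6 := hq 0 (by omega)
    rw [h1]
    have h7 : ‖((k.factorial : ℂ) * u k - q 0 ^ k) * q 0 +
          (k.factorial : ℂ) * ∑ p ∈ (antidiagonal k).erase (k, 0), u p.1 * q p.2‖ ≤
        ‖(k.factorial : ℂ) * u k - q 0 ^ k‖ * M + k.factorial * (k * M ^ k) := by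
      refine (norm_add_le _ _).trans (add_le_add ?_ ?_)
      · rw [norm_mul]
        exact mul_le_mul_of_nonneg_left h6 (norm_nonneg _)
      · rw [norm_mul, Complex.norm_natCast]
        exact mul_le_mul_of_nonneg_left h3 (by positivity)
    calc _ ≤ (((k.factorial : ℝ) - 1) * M ^ k + k.factorial * (k * M ^ k)) * M :=
          mul_le_mul_of_nonneg_right (h7.trans (by linarith)) hM0
      _ = _ := by
          rw [Nat.factorial_succ]
          push_cast
          ring

lemma pow_le_of_est {H p : ℂ} {M : ℝ} {k : ℕ} (hM : 0 ≤ M)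
    (h : ‖(k.factorial : ℂ) * H - p ^ k‖ * M ≤ ((k.factorial : ℝ) - 1) * M ^ k) :
    ‖p‖ ^ k * M ≤ k.factorial * (‖H‖ * M + M ^ k) := by
  have h1 : ‖p‖ ^ k ≤ k.factorial * ‖H‖ + ‖(k.factorial : ℂ) * H - p ^ k‖ := by
    rw [← norm_pow, ← Complex.norm_natCast, ← norm_mul]
    have : p ^ k = (k.factorial : ℂ) * H - ((k.factorial : ℂ) * H - p ^ k) := by ring
    calc ‖p ^ k‖ = ‖(k.factorial : ℂ) * H - ((k.factorial : ℂ) * H - p ^ k)‖ := by rw [← this]
      _ ≤ _ := norm_sub_le _ _
  have h2 := mul_le_mul_of_nonneg_right h1 hM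
  have h3 : 0 ≤ M ^ k := by positivity
  nlinarith

open Classical in
/-- The sum over tuples of type `i`, compared with the `k`-th power of the first power sum. -/
lemma main_est (x : ℕ → ℂ) (k T i : ℕ) (hi : i ∈ ({1, 2, 3} : Finset ℕ)) (M : ℝ) (hM : 1 ≤ M)
    (hp : ∀ j, j < k → ‖pS x (j + 1) T‖ ≤ M) :
    ‖pS x 1 T‖ ^ k * M ≤ k.factorial *
      (‖∑ a ∈ (tup k T).filter (fun a => (i = 2 → Monotone a) ∧ (i = 3 → StrictMono a)),
        ∏ j, x (a j)‖ * M + M ^ k) := by
  have hM0 : 0 ≤ M := by linarith
  simp only [mem_insert, mem_singleton] at hi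
  rcases hi with rfl | rfl | rfl
  · have h1 : ∑ a ∈ (tup k T).filter (fun a => (1 = 2 → Monotone a) ∧ (1 = 3 → StrictMono a)),
        ∏ j, x (a j) = pS x 1 T ^ k := by
      rw [filter_true_of_mem (by simp)]
      unfold tup pS
      rw [← prod_univ_sum]
      simp
    rw [h1, norm_pow]
    have h2 : (1 : ℝ) ≤ k.factorial := by exact_mod_cast Nat.succ_le_of_lt k.factorial_pos
    have h3 : 0 ≤ M ^ k := by positivity
    have h4 : 0 ≤ ‖pS x 1 T‖ ^ k * M := by positivity
    nlinarith
  · have h1 : ∑ a ∈ (tup k T).filter (fun a => (2 = 2 → Monotone a) ∧ (2 = 3 → StrictMono a)),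
        ∏ j, x (a j) = hS x k T := by
      unfold hS
      apply sum_congr _ (fun _ _ => rfl)
      ext a
      simp
    rw [h1]
    apply pow_le_of_est hM0
    refine (newton_est (fun k => hS x k T) (fun j => pS x (j + 1) T) M k hM (hS_zero x T) ?_
      hp k le_rfl).2
    intro m
    have := congrArg (coeff m) (newton_h x T)
    simpa [coeff_derivative, coeff_mul] using this
  · have h1 : ∑ a ∈ (tup k T).filter (fun a => (3 = 2 → Monotone a) ∧ (3 = 3 → StrictMono a)),
        ∏ j, x (a j) = eS x k T := by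
      unfold eS
      apply sum_congr _ (fun _ _ => rfl)
      ext a
      simp
    rw [h1]
    apply pow_le_of_est hM0
    have := (newton_est (fun k => eS x k T) (fun j => (-1) ^ j * pS x (j + 1) T) M k hM
      (eS_zero x T) ?_ ?_ k le_rfl).2
    · simpa using this
    · intro m
      have := congrArg (coeff m) (newton_e x T)
      simpa [coeff_derivative, coeff_mul] using this
    · intro j hj
      simpa using hp j hj

end Pool.Agent.H711Z.Dombi
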