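import Pool.Agent.H711Z.DombiA

/-!
The analytic part: Parseval's identity on a half circle and the integrated inequality.
-/

set_option autoImplicit false

namespace Pool.Agent.H711Z.Dombi

open Finset Real

/-- the point `r e^(i θ)` -/
noncomputable def zz (r θ : ℝ) : ℂ := r * Complex.exp (θ * Complex.I)

lemma norm_zz {r : ℝ} (hr : 0 ≤ r) (θ : ℝ) : ‖zz r θ‖ = r := by
  simp [zz, Complex.norm_exp_ofReal_mul_I, abs_of_nonneg hr]

lemma zz_pow (r θ : ℝ) (n : ℕ) : zz r θ ^ n = zz (r ^ n) (n * θ) := by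
  unfold zz
  rw [mul_pow, ← Complex.exp_nat_mul]
  push_cast
  ring_nf

lemma zz_re (r θ : ℝ) : (zz r θ).re = r * cos θ := by
  simp [zz, Complex.exp_ofReal_mul_I_re]

lemma zz_im (r θ : ℝ) : (zz r θ).im = r * sin θ := by
  simp [zz, Complex.exp_ofReal_mul_I_im]

lemma continuous_zz (r : ℝ) : Continuous (zz r) := by
  unfold zz
  fun_prop

lemma int_cos (a b : ℕ) :
    ∫ θ in (0 : ℝ)..π, cos (((a : ℝ) - b) * θ) = if a = b then π else 0 := by
  split_ifs with h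
  · simp [h]
  · have h1 : ((a : ℝ) - b) ≠ 0 := sub_ne_zero.mpr (by exact_mod_cast h)
    rw [intervalIntegral.integral_comp_mul_left (fun t => cos t) h1, integral_cos]
    have : sin (((a : ℝ) - b) * π) = 0 := by
      have := Real.sin_int_mul_pi ((a : ℤ) - b)
      push_cast at this
      exact this
    simp [this]

lemma parseval (S : Finset ℕ) (r : ℝ) (m : ℕ) (hm : 0 < m) :
    ∫ θ in (0 : ℝ)..π, ‖∑ a ∈ S, (zz r θ ^ a) ^ m‖ ^ 2 = π * ∑ a ∈ S, ((r ^ 2) ^ a) ^ m := by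
  have h1 : ∀ θ : ℝ, ‖∑ a ∈ S, (zz r θ ^ a) ^ m‖ ^ 2 =
      ∑ a ∈ S, ∑ b ∈ S, r ^ (a * m) * r ^ (b * m) *
        cos ((((a * m : ℕ) : ℝ) - ((b * m : ℕ) : ℝ)) * θ) := by
    intro θ
    rw [Complex.sq_norm, Complex.normSq_apply, Complex.re_sum, Complex.im_sum, sum_mul_sum,
      sum_mul_sum, ← sum_add_distrib]
    refine sum_congr rfl fun a _ => ?_
    rw [← sum_add_distrib]
    refine sum_congr rfl fun b _ => ?_
    rw [← pow_mul, ← pow_mul, zz_pow, zz_pow, zz_re, zz_re, zz_im, zz_im, sub_mul, cos_sub]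
    ring
  simp_rw [h1]
  rw [intervalIntegral.integral_finset_sum, mul_sum]
  · refine sum_congr rfl fun a ha => ?_
    rw [intervalIntegral.integral_finset_sum]
    · simp_rw [intervalIntegral.integral_const_mul, int_cos]
      rw [sum_eq_single a]
      · simp only [if_true]
        ring
      · intro b _ hba
        rw [if_neg, mul_zero]
        intro h
        exact hba (Nat.eq_of_mul_eq_mul_right hm h).symm
      · intro h
        exact absurd ha h
    · intro b _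
      exact Continuous.intervalIntegrable (by fun_prop) _ _
  · intro a _
    exact Continuous.intervalIntegrable (by fun_prop) _ _

lemma pt {k : ℕ} (hk : 1 ≤ k) {P H M c η : ℝ} (hP : 0 ≤ P) (hH : 0 ≤ H) (hM : 1 ≤ M)
    (hPM : P ≤ M) (hc : 1 ≤ c) (hη : 0 < η)
    (h : P ^ k * M ≤ c * (H * M + M ^ k)) :
    P ^ 2 ≤ (2 * c * H) ^ ((2 : ℝ) / k) + η ^ 2 * M ^ 2 + (2 * c / η ^ k) ^ 2 := by
  have a1 : 0 ≤ (2 * c * H) ^ ((2 : ℝ) / k) := by positivity
  have a2 : 0 ≤ η ^ 2 * M ^ 2 := by positivity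
  have a3 : 0 ≤ (2 * c / η ^ k) ^ 2 := by positivity
  have hM0 : 0 < M := by linarith
  by_cases h1 : P ≤ η * M
  · have := pow_le_pow_left₀ hP h1 2
    rw [mul_pow] at this
    linarith
  by_cases h2 : M ≤ 2 * c / η ^ k
  · have := pow_le_pow_left₀ hP (hPM.trans h2) 2
    linarith
  push Not at h1 h2
  have h3 : 2 * c < M * η ^ k := by rwa [div_lt_iff₀ (by positivity)] at h2
  have h4 : (η * M) ^ k ≤ P ^ k := pow_le_pow_left₀ (by positivity) h1.le k
  rw [mul_pow] at h4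
  have h5 : 0 < M ^ k := by positivity
  have h6 : 2 * c * M ^ k ≤ P ^ k * M := by
    calc 2 * c * M ^ k ≤ M * η ^ k * M ^ k := mul_le_mul_of_nonneg_right h3.le h5.le
      _ = η ^ k * M ^ k * M := by ring
      _ ≤ P ^ k * M := mul_le_mul_of_nonneg_right h4 hM0.le
  have h7 : P ^ k * M ≤ (2 * c * H) * M := by nlinarith
  have h8 : P ^ k ≤ 2 * c * H := le_of_mul_le_mul_right h7 hM0
  have hk0 : (k : ℝ) ≠ 0 := by positivity
  have h9 : P ^ 2 = (P ^ k) ^ ((2 : ℝ) / k) := by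
    rw [← Real.rpow_natCast P k, ← Real.rpow_mul hP, mul_div_cancel₀ _ hk0]
    norm_cast
  have h10 : (P ^ k) ^ ((2 : ℝ) / k) ≤ (2 * c * H) ^ ((2 : ℝ) / k) :=
    Real.rpow_le_rpow (by positivity) h8 (by positivity)
  linarith

lemma le_of_sq_le_sq_aux {a b : ℝ} (hb : 0 ≤ b) (h : a ^ 2 ≤ b ^ 2) : a ≤ b :=
  (abs_le_of_sq_le_sq' h hb).2

lemma one_sub_zz_ge {r θ : ℝ} (hr : 1 / 3 ≤ r) (h0 : 0 ≤ θ) (h1 : θ ≤ π) :
    θ / 3 ≤ ‖1 - zz r θ‖ := by
  apply le_of_sq_le_sq_aux (norm_nonneg _)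
  rw [Complex.sq_norm, Complex.normSq_apply]
  simp only [Complex.sub_re, Complex.one_re, Complex.sub_im, Complex.one_im, zz_re, zz_im]
  have hc := Real.cos_le_one_sub_mul_cos_sq (x := θ) (by rwa [abs_of_nonneg h0])
  have hs := sin_sq_add_cos_sq θ
  have hpi : π ^ 2 ≤ 12 := by nlinarith [Real.pi_lt_d2, Real.pi_pos]
  have hpi2 : 1 / 6 ≤ 2 / π ^ 2 := by
    rw [le_div_iff₀ (by positivity)]
    linarith
  have h2 : θ ^ 2 / 6 ≤ 1 - cos θ := by nlinarith [sq_nonneg θ]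
  have h3 : (1 - r * cos θ) * (1 - r * cos θ) + (0 - r * sin θ) * (0 - r * sin θ) =
      (1 - r) ^ 2 + 2 * r * (1 - cos θ) := by
    linear_combination r ^ 2 * hs
  rw [h3]
  nlinarith [sq_nonneg (1 - r), sq_nonneg θ]

open Classical in
/-- the weights -/
noncomputable def xA (A : Set ℕ) (z : ℂ) (a : ℕ) : ℂ := if a ∈ A then z ^ a else 0

open Classical in
/-- the truncated generating function of `A` -/
noncomputable def FA (A : Set ℕ) (T : ℕ) (ρ : ℝ) : ℝ := ∑ a ∈ (range T).filter (· ∈ A), ρ ^ a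

open Classical in
/-- the truncated generating function of the representation function -/
noncomputable def HA (A : Set ℕ) (i k T : ℕ) (z : ℂ) : ℂ :=
  ∑ a ∈ (tup k T).filter (fun a => (i = 2 → Monotone a) ∧ (i = 3 → StrictMono a)),
    ∏ j, xA A z (a j)

open Classical in
lemma pS_xA (A : Set ℕ) (z : ℂ) (j T : ℕ) :
    pS (xA A z) (j + 1) T = ∑ a ∈ (range T).filter (· ∈ A), (z ^ a) ^ (j + 1) := by
  unfold pS xA
  rw [sum_filter]
  refine sum_congr rfl fun a _ => ?_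
  split_ifs <;> simp

lemma FA_nonneg (A : Set ℕ) (T : ℕ) {ρ : ℝ} (h : 0 ≤ ρ) : 0 ≤ FA A T ρ := by
  unfold FA
  positivity

lemma core {k : ℕ} (hk : 2 ≤ k) {i : ℕ} (hi : i ∈ ({1, 2, 3} : Finset ℕ)) {e s : ℝ}
    (he : 0 ≤ e) (hs0 : 0 ≤ s) (hs1 : s < 1) (hes : e + s = 2 / k) :
    ∃ D : ℝ, 0 < D ∧ ∀ (A : Set ℕ) (T : ℕ) (r K : ℝ), 1 / 3 ≤ r → r < 1 → 0 ≤ K →
      (∀ z : ℂ, ‖z‖ = r → ‖(1 - z) * HA A i k T z‖ ≤ K) →
      FA A T (r ^ 2) ≤ D * (K ^ ((2 : ℝ) / k) * (1 - r) ^ (-e) + 1) := by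
  classical
  set c : ℝ := (k.factorial : ℝ) with hc
  have hc1 : 1 ≤ c := by rw [hc]; exact_mod_cast Nat.succ_le_of_lt k.factorial_pos
  have hk' : (2 : ℝ) ≤ k := by exact_mod_cast hk
  set η : ℝ := 1 / k with hη
  have hη0 : 0 < η := by positivity
  set I : ℝ := ∫ θ in (0 : ℝ)..π, θ ^ (-s) with hI
  have hI0 : 0 ≤ I := intervalIntegral.integral_nonneg pi_pos.le
    (fun u hu => Real.rpow_nonneg hu.1 _)
  set D1 : ℝ := (2 * c) ^ ((2 : ℝ) / k) * 3 ^ s * I with hD1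
  have hD10 : 0 ≤ D1 := by positivity
  set D2 : ℝ := η ^ 2 + (2 * c / η ^ k) ^ 2 with hD2
  have hD20 : 0 < D2 := by positivity
  refine ⟨2 * (D1 + D2), by positivity, fun A T r K hr hr1 hK hb => ?_⟩
  have hr0 : 0 < r := by linarith
  set S := (range T).filter (· ∈ A) with hS
  set p : ℕ → ℝ → ℝ := fun j θ => ‖∑ a ∈ S, (zz r θ ^ a) ^ (j + 1)‖ ^ 2 with hp
  have hpc : ∀ j, Continuous (p j) := by
    intro j
    have := continuous_zz r
    simp only [hp]
    fun_prop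
  have hp0 : ∀ j θ, 0 ≤ p j θ := fun j θ => by simp only [hp]; positivity
  set B : ℝ := (2 * c) ^ ((2 : ℝ) / k) * 3 ^ s * (K ^ ((2 : ℝ) / k) * (1 - r) ^ (-e)) with hB
  have hpt : ∀ θ ∈ Set.Ioo (0 : ℝ) π, p 0 θ ≤
      B * θ ^ (-s) + (η ^ 2 * ∑ j ∈ range k, p j θ + D2) := by
    intro θ hθ
    have hsum : 0 ≤ ∑ j ∈ range k, p j θ := sum_nonneg fun j _ => hp0 j θ
    set M : ℝ := Real.sqrt (1 + ∑ j ∈ range k, p j θ) with hM
    have hM2 : M ^ 2 = 1 + ∑ j ∈ range k, p j θ := Real.sq_sqrt (by linarith)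
    have hM1 : 1 ≤ M := Real.one_le_sqrt.mpr (by linarith)
    have hpj : ∀ j, j < k → ‖pS (xA A (zz r θ)) (j + 1) T‖ ≤ M := by
      intro j hj
      apply Real.le_sqrt_of_sq_le
      rw [pS_xA]
      have := single_le_sum (f := fun j => p j θ) (fun j _ => hp0 j θ) (mem_range.mpr hj)
      show p j θ ≤ _
      linarith
    have h1 := main_est (xA A (zz r θ)) k T i hi M hM1 hpj
    have h2 := pt (η := η) (by omega) (norm_nonneg _) (norm_nonneg _) hM1 (hpj 0 (by omega)) hc1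
      hη0 h1
    have h3 : ‖pS (xA A (zz r θ)) (0 + 1) T‖ ^ 2 = p 0 θ := by rw [pS_xA]
    rw [h3, hM2] at h2
    change p 0 θ ≤ (2 * c * ‖HA A i k T (zz r θ)‖) ^ ((2 : ℝ) / k) + _ + _ at h2
    have hw1 := one_sub_zz_ge hr hθ.1.le hθ.2.le
    have hw2 : 1 - r ≤ ‖1 - zz r θ‖ := by
      have := norm_sub_norm_le (1 : ℂ) (zz r θ)
      rwa [norm_one, norm_zz hr0.le] at this
    set w := ‖1 - zz r θ‖ with hw
    have hθ0 := hθ.1
    have hw0 : 0 < w := by linarith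
    have h4 : ‖HA A i k T (zz r θ)‖ ≤ K / w := by
      rw [le_div_iff₀ hw0, mul_comm, hw, ← norm_mul]
      exact hb _ (norm_zz hr0.le θ)
    have h5 : (2 * c * ‖HA A i k T (zz r θ)‖) ^ ((2 : ℝ) / k) ≤ (2 * c * (K / w)) ^ ((2 : ℝ) / k) :=
      Real.rpow_le_rpow (by positivity) (by gcongr) (by positivity)
    have h6 : (2 * c * (K / w)) ^ ((2 : ℝ) / k) =
        (2 * c) ^ ((2 : ℝ) / k) * K ^ ((2 : ℝ) / k) * (w ^ (-e) * w ^ (-s)) := by
      rw [Real.mul_rpow (by positivity) (by positivity), Real.div_rpow hK hw0.le,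
        ← Real.rpow_add hw0, ← neg_add, hes, Real.rpow_neg hw0.le]
      ring
    have h7 : w ^ (-e) ≤ (1 - r) ^ (-e) :=
      Real.rpow_le_rpow_of_nonpos (by linarith) hw2 (by linarith)
    have h8 : w ^ (-s) ≤ 3 ^ s * θ ^ (-s) := by
      have h9 : w ^ (-s) ≤ (θ / 3) ^ (-s) :=
        Real.rpow_le_rpow_of_nonpos (by positivity) hw1 (by linarith)
      rw [Real.div_rpow hθ0.le (by norm_num), Real.rpow_neg (by norm_num : (0 : ℝ) ≤ 3)] at h9
      rw [div_inv_eq_mul, mul_comm] at h9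
      exact h9
    have h10 : w ^ (-e) * w ^ (-s) ≤ (1 - r) ^ (-e) * (3 ^ s * θ ^ (-s)) :=
      mul_le_mul h7 h8 (by positivity) (Real.rpow_nonneg (by linarith) _)
    have h11 : (2 * c) ^ ((2 : ℝ) / k) * K ^ ((2 : ℝ) / k) * (w ^ (-e) * w ^ (-s)) ≤
        B * θ ^ (-s) := by
      calc _ ≤ (2 * c) ^ ((2 : ℝ) / k) * K ^ ((2 : ℝ) / k) *
            ((1 - r) ^ (-e) * (3 ^ s * θ ^ (-s))) :=
            mul_le_mul_of_nonneg_left h10 (by positivity)
        _ = _ := by rw [hB]; ring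
    rw [hD2]
    nlinarith
  have hi1 : IntervalIntegrable (fun θ : ℝ => B * θ ^ (-s)) MeasureTheory.volume 0 π :=
    (intervalIntegral.intervalIntegrable_rpow' (by linarith)).const_mul B
  have hi2 : IntervalIntegrable (fun θ : ℝ => η ^ 2 * ∑ j ∈ range k, p j θ + D2)
      MeasureTheory.volume 0 π := Continuous.intervalIntegrable (by fun_prop) _ _
  have hint := intervalIntegral.integral_mono_on_of_le_Ioo pi_pos.le
    ((hpc 0).intervalIntegrable _ _) (hi1.add hi2) hpt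
  rw [intervalIntegral.integral_add hi1 hi2, intervalIntegral.integral_const_mul,
    intervalIntegral.integral_add (Continuous.intervalIntegrable (by fun_prop) _ _)
      (Continuous.intervalIntegrable (by fun_prop) _ _), intervalIntegral.integral_const_mul,
    intervalIntegral.integral_finset_sum (fun j _ => (hpc j).intervalIntegrable _ _)] at hint
  have hpar : ∀ j, ∫ θ in (0 : ℝ)..π, p j θ = π * ∑ a ∈ S, ((r ^ 2) ^ a) ^ (j + 1) :=
    fun j => parseval S r (j + 1) (Nat.succ_pos j)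
  simp only [hpar, intervalIntegral.integral_const, sub_zero, smul_eq_mul, zero_add, pow_one]
    at hint
  have hF : FA A T (r ^ 2) = ∑ a ∈ S, (r ^ 2) ^ a := rfl
  have hF0 := FA_nonneg A T (sq_nonneg r)
  have hle : ∑ j ∈ range k, π * ∑ a ∈ S, ((r ^ 2) ^ a) ^ (j + 1) ≤ k * (π * FA A T (r ^ 2)) := by
    have : ∑ j ∈ range k, π * ∑ a ∈ S, ((r ^ 2) ^ a) ^ (j + 1) ≤
        ∑ _j ∈ range k, π * FA A T (r ^ 2) := by
      refine sum_le_sum fun j _ => mul_le_mul_of_nonneg_left ?_ pi_pos.le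
      rw [hF]
      refine sum_le_sum fun a _ => ?_
      have h1 : (r ^ 2) ^ a ≤ 1 := pow_le_one₀ (by positivity) (pow_le_one₀ hr0.le hr1.le)
      exact pow_le_of_le_one (by positivity) h1 (Nat.succ_ne_zero j)
    simpa using this
  rw [← hF, ← hI] at hint
  have hηk : η ^ 2 * k ≤ 1 / 2 := by
    rw [hη]
    field_simp
    linarith
  have hB' : B * I = D1 * (K ^ ((2 : ℝ) / k) * (1 - r) ^ (-e)) := by rw [hB, hD1]; ring
  set Y := K ^ ((2 : ℝ) / k) * (1 - r) ^ (-e) with hY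
  have hY0 : 0 ≤ Y := mul_nonneg (by positivity) (Real.rpow_nonneg (by linarith) _)
  have hpi : 1 ≤ π := by linarith [Real.pi_gt_three]
  have h12 : η ^ 2 * ∑ j ∈ range k, π * ∑ a ∈ S, ((r ^ 2) ^ a) ^ (j + 1) ≤
      1 / 2 * (π * FA A T (r ^ 2)) := by
    calc _ ≤ η ^ 2 * (k * (π * FA A T (r ^ 2))) := mul_le_mul_of_nonneg_left hle (by positivity)
      _ = (η ^ 2 * k) * (π * FA A T (r ^ 2)) := by ring
      _ ≤ _ := mul_le_mul_of_nonneg_right hηk (by positivity)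
  have h13 : π * FA A T (r ^ 2) ≤ π * (2 * (D1 + D2) * (Y + 1)) := by
    have h14 : D1 * Y ≤ π * (D1 * Y) := le_mul_of_one_le_left (by positivity) hpi
    have h15 : 0 ≤ π * (D2 * Y) := by positivity
    have h16 : 0 ≤ π * D1 := by positivity
    nlinarith
  exact le_of_mul_le_mul_left h13 pi_pos

end Pool.Agent.H711Z.Dombi
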