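import Pool.Agent.H711Z.DombiB

/-!
Bounding the generating function of an eventually monotone representation function.
-/

set_option autoImplicit false

namespace Pool.Agent.H711Z.Dombi

open Finset Real

/-- the representation function -/
noncomputable def RR (A : Set ℕ) (i k n : ℕ) : ℕ :=
  Set.ncard {a : Fin k → ℕ | (∀ j, a j ∈ A) ∧ (∑ j, a j) = n ∧
    (i = 2 → Monotone a) ∧ (i = 3 → StrictMono a)}

open Classical in
/-- admissible tuples with entries below `T` -/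
noncomputable def WW (A : Set ℕ) (i k T : ℕ) : Finset (Fin k → ℕ) :=
  (tup k T).filter (fun a => (∀ j, a j ∈ A) ∧ (i = 2 → Monotone a) ∧ (i = 3 → StrictMono a))

/-- truncated representation function -/
noncomputable def RT (A : Set ℕ) (i k T n : ℕ) : ℕ :=
  ((WW A i k T).filter (fun a => ∑ j, a j = n)).card

lemma mem_WW {A : Set ℕ} {i k T : ℕ} {a : Fin k → ℕ} : a ∈ WW A i k T ↔
    (∀ j, a j < T) ∧ (∀ j, a j ∈ A) ∧ (i = 2 → Monotone a) ∧ (i = 3 → StrictMono a) := by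
  simp [WW, mem_tup]

lemma HA_eq (A : Set ℕ) (i k T : ℕ) (z : ℂ) :
    HA A i k T z = ∑ a ∈ WW A i k T, z ^ (∑ j, a j) := by
  classical
  unfold HA WW
  rw [sum_filter, sum_filter]
  refine sum_congr rfl fun a _ => ?_
  by_cases h1 : ∀ j, a j ∈ A
  · by_cases h2 : (i = 2 → Monotone a) ∧ (i = 3 → StrictMono a)
    · rw [if_pos h2, if_pos ⟨h1, h2⟩, ← prod_pow_eq_pow_sum]
      exact prod_congr rfl fun j _ => by simp [xA, h1 j]
    · have h3 : ¬ ((∀ j, a j ∈ A) ∧ (i = 2 → Monotone a) ∧ (i = 3 → StrictMono a)) :=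
        fun h => h2 h.2
      rw [if_neg h2, if_neg h3]
  · have h3 : ¬ ((∀ j, a j ∈ A) ∧ (i = 2 → Monotone a) ∧ (i = 3 → StrictMono a)) :=
      fun h => h1 h.1
    rw [if_neg h3]
    push Not at h1
    obtain ⟨j, hj⟩ := h1
    split_ifs
    · exact prod_eq_zero (mem_univ j) (by simp [xA, hj])
    · rfl

lemma sum_lt_of_mem {A : Set ℕ} {i k T : ℕ} {a : Fin k → ℕ} (ha : a ∈ WW A i k T) :
    ∑ j, a j < k * T + 1 := by
  have : ∑ j, a j ≤ ∑ _j : Fin k, T := sum_le_sum fun j _ => ((mem_WW.mp ha).1 j).le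
  simp at this
  omega

lemma sum_WW {R : Type} [CommSemiring R] (A : Set ℕ) (i k T : ℕ) (z : R) :
    ∑ a ∈ WW A i k T, z ^ (∑ j, a j) = ∑ n ∈ range (k * T + 1), (RT A i k T n : R) * z ^ n := by
  rw [← sum_fiberwise_of_maps_to (s := WW A i k T) (t := range (k * T + 1))
    (g := fun a => ∑ j, a j) (fun a ha => mem_range.mpr (sum_lt_of_mem ha))]
  refine sum_congr rfl fun n _ => ?_
  rw [sum_congr rfl (g := fun _ => z ^ n) (fun a ha => by rw [(mem_filter.mp ha).2])]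
  simp [RT]

lemma RT_top (A : Set ℕ) (i k T : ℕ) : RT A i k T (k * T + 1) = 0 := by
  unfold RT
  rw [card_eq_zero, filter_eq_empty_iff]
  intro a ha
  exact (sum_lt_of_mem ha).ne

lemma RT_eq (A : Set ℕ) (i k : ℕ) {T n : ℕ} (h : n < T) : RT A i k T n = RR A i k n := by
  unfold RT RR
  rw [← Set.ncard_coe_finset]
  congr 1
  ext a
  simp only [coe_filter, mem_WW, Set.mem_setOf_eq]
  constructor
  · rintro ⟨⟨_, h2, h3⟩, h4⟩
    exact ⟨h2, h4, h3⟩
  · rintro ⟨h2, h4, h3⟩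
    refine ⟨⟨fun j => ?_, h2, h3⟩, h4⟩
    have := single_le_sum (f := a) (fun j _ => Nat.zero_le _) (mem_univ j)
    omega

lemma RT_le (A : Set ℕ) (i k T n : ℕ) : RT A i k T n ≤ RR A i k n := by
  rw [← RT_eq A i k (T := max T (n + 1)) (by omega)]
  unfold RT
  apply card_le_card
  intro a ha
  rw [mem_filter, mem_WW] at ha ⊢
  exact ⟨⟨fun j => lt_of_lt_of_le (ha.1.1 j) (le_max_left _ _), ha.1.2⟩, ha.2⟩

lemma sum_RT_le (A : Set ℕ) (i k T : ℕ) :
    ∑ n ∈ range (k * T + 1), (RT A i k T n : ℝ) ≤ (T : ℝ) ^ k := by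
  classical
  have h := sum_WW A i k T (1 : ℝ)
  simp only [one_pow, sum_const, nsmul_eq_mul, mul_one] at h
  rw [← h]
  have : (WW A i k T).card ≤ (tup k T).card := card_le_card (filter_subset _ _)
  have h2 : (tup k T).card = T ^ k := by simp [tup]
  rw [h2] at this
  exact_mod_cast this

lemma HR_le (A : Set ℕ) (i k T : ℕ) {r : ℝ} (hr : 0 ≤ r) :
    ∑ a ∈ WW A i k T, r ^ (∑ j, a j) ≤ FA A T r ^ k := by
  classical
  have h1 : FA A T r ^ k =
      ∑ a ∈ Fintype.piFinset (fun _ : Fin k => (range T).filter (· ∈ A)), r ^ (∑ j, a j) := by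
    simp_rw [← prod_pow_eq_pow_sum]
    rw [← prod_univ_sum]
    simp [FA]
  rw [h1]
  apply sum_le_sum_of_subset_of_nonneg
  · intro a ha
    rw [mem_WW] at ha
    simp only [Fintype.mem_piFinset, mem_filter, mem_range]
    exact fun j => ⟨ha.1 j, ha.2.1 j⟩
  · intro a _ _
    positivity

lemma abel {R : Type} [CommRing R] (f : ℕ → R) (z : R) (L : ℕ) :
    (1 - z) * ∑ n ∈ range L, f n * z ^ n =
      f 0 + ∑ n ∈ range L, (f (n + 1) - f n) * z ^ (n + 1) - f L * z ^ L := by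
  induction L with
  | zero => simp
  | succ L ih =>
    rw [sum_range_succ, sum_range_succ, mul_add, ih]
    ring

lemma K_bound (A : Set ℕ) (i k T n₀ : ℕ) (hmono : ∀ n, n₀ ≤ n → RR A i k n ≤ RR A i k (n + 1))
    {r : ℝ} (hr0 : 0 ≤ r) (hr1 : r ≤ 1) (z : ℂ) (hz : ‖z‖ = r) :
    ‖(1 - z) * HA A i k T z‖ ≤ (1 - r) * ∑ a ∈ WW A i k T, r ^ (∑ j, a j) +
      2 * ∑ n ∈ range n₀, (RR A i k n : ℝ) + 2 * ((T : ℝ) ^ k * r ^ T) := by
  rw [HA_eq, sum_WW, sum_WW, abel (fun n => (RT A i k T n : ℂ)), abel (fun n => (RT A i k T n : ℝ))]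
  simp only [RT_top, Nat.cast_zero, zero_mul, sub_zero]
  refine (norm_add_le _ _).trans ?_
  rw [Complex.norm_natCast]
  have h1 : ‖∑ n ∈ range (k * T + 1), ((RT A i k T (n + 1) : ℂ) - RT A i k T n) * z ^ (n + 1)‖ ≤
      ∑ n ∈ range (k * T + 1), (((RT A i k T (n + 1) : ℝ) - RT A i k T n) * r ^ (n + 1) +
        2 * (if n < n₀ then (RR A i k n : ℝ) else 0) + 2 * (RT A i k T n * r ^ T)) := by
    refine (norm_sum_le _ _).trans (sum_le_sum fun n _ => ?_)
    have e1 : ((RT A i k T (n + 1) : ℂ) - RT A i k T n) =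
        (((RT A i k T (n + 1) : ℝ) - RT A i k T n : ℝ) : ℂ) := by push_cast; rfl
    rw [norm_mul, norm_pow, hz, e1, Complex.norm_real, Real.norm_eq_abs]
    have a1 : 0 ≤ (if n < n₀ then (RR A i k n : ℝ) else 0) := by split_ifs <;> positivity
    have a2 : 0 ≤ (RT A i k T n : ℝ) * r ^ T := by positivity
    have a3 : 0 ≤ r ^ (n + 1) := by positivity
    have a4 : r ^ (n + 1) ≤ 1 := pow_le_one₀ hr0 hr1
    have a5 : (0 : ℝ) ≤ RT A i k T (n + 1) := by positivity
    have a6 : (0 : ℝ) ≤ RT A i k T n := by positivity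
    rcases le_total (RT A i k T n : ℝ) (RT A i k T (n + 1)) with h | h
    · rw [abs_of_nonneg (by linarith)]
      linarith
    · rw [abs_of_nonpos (by linarith)]
      by_cases hn : n < n₀
      · rw [if_pos hn]
        have a7 : (RT A i k T n : ℝ) ≤ RR A i k n := by exact_mod_cast RT_le A i k T n
        nlinarith
      · rw [if_neg hn]
        by_cases hT : n + 1 < T
        · have a7 : (RT A i k T n : ℝ) ≤ RT A i k T (n + 1) := by
            rw [RT_eq A i k hT, RT_eq A i k (by omega : n < T)]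
            exact_mod_cast hmono n (by omega)
          have a8 : (RT A i k T (n + 1) : ℝ) - RT A i k T n = 0 := by linarith
          rw [a8]
          linarith
        · have a7 : r ^ (n + 1) ≤ r ^ T := pow_le_pow_of_le_one hr0 hr1 (by omega)
          nlinarith
  rw [sum_add_distrib, sum_add_distrib, ← mul_sum, ← mul_sum, ← sum_mul] at h1
  have h2 : ∑ n ∈ range (k * T + 1), (if n < n₀ then (RR A i k n : ℝ) else 0) ≤
      ∑ n ∈ range n₀, (RR A i k n : ℝ) := by
    rw [← sum_filter]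
    apply sum_le_sum_of_subset_of_nonneg
    · intro n hn
      exact mem_range.mpr (mem_filter.mp hn).2
    · intro n _ _
      positivity
  have h3 := mul_le_mul_of_nonneg_right (sum_RT_le A i k T) (pow_nonneg hr0 T)
  linarith

lemma exists_pos (A : Set ℕ) (hA : A.Infinite) (i : ℕ) {k : ℕ} (hk : 2 ≤ k) (n₀ : ℕ)
    (hmono : ∀ n, n₀ ≤ n → RR A i k n ≤ RR A i k (n + 1)) :
    ∃ n₁, ∀ n, n₁ ≤ n → 1 ≤ RR A i k n := by
  have hinf : (setOf (· ∈ A)).Infinite := hA
  have hsm := Nat.nth_strictMono hinf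
  set a : Fin k → ℕ := fun j => Nat.nth (· ∈ A) (n₀ + j) with ha
  have hsa : StrictMono a := fun i j hij => hsm (by simpa using hij)
  have h0 : n₀ ≤ ∑ j, a j := by
    have h1 := single_le_sum (f := a) (fun j _ => Nat.zero_le _) (mem_univ ⟨0, by omega⟩)
    have h2 : n₀ ≤ a ⟨0, by omega⟩ := hsm.id_le (n₀ + 0)
    omega
  refine ⟨∑ j, a j, fun n hn => ?_⟩
  induction n, hn using Nat.le_induction with
  | base =>
    rw [← RT_eq A i k (Nat.lt_succ_self _)]
    apply card_pos.mpr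
    refine ⟨a, mem_filter.mpr ⟨mem_WW.mpr ⟨fun j => ?_, fun j => ?_, fun _ => hsa.monotone,
      fun _ => hsa⟩, rfl⟩⟩
    · exact Nat.lt_succ_of_le (single_le_sum (f := a) (fun j _ => Nat.zero_le _) (mem_univ j))
    · exact Nat.nth_mem_of_infinite hinf _
  | succ n hn ih => exact ih.trans (hmono n (h0.trans hn))

lemma HR_ge (A : Set ℕ) (i : ℕ) {k : ℕ} (hk : 2 ≤ k) {T n₁ : ℕ} (hT : n₁ ≤ T)
    (h1 : ∀ n, n₁ ≤ n → 1 ≤ RR A i k n) {r : ℝ} (hr0 : 0 ≤ r) (hr1 : r ≤ 1) :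
    r ^ n₁ - r ^ T ≤ (1 - r) * ∑ a ∈ WW A i k T, r ^ (∑ j, a j) := by
  rw [← geom_sum_Ico_mul_neg r hT, mul_comm, sum_WW]
  apply mul_le_mul_of_nonneg_left _ (by linarith)
  calc ∑ n ∈ Ico n₁ T, r ^ n ≤ ∑ n ∈ Ico n₁ T, (RT A i k T n : ℝ) * r ^ n := by
        refine sum_le_sum fun n hn => ?_
        rw [mem_Ico] at hn
        rw [RT_eq A i k hn.2]
        have : (1 : ℝ) ≤ RR A i k n := by exact_mod_cast h1 n hn.1
        exact le_mul_of_one_le_left (by positivity) this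
    _ ≤ _ := by
        apply sum_le_sum_of_subset_of_nonneg
        · intro n hn
          rw [mem_Ico] at hn
          have : T ≤ k * T := Nat.le_mul_of_pos_left T (by omega)
          exact mem_range.mpr (by omega)
        · intro n _ _
          positivity

lemma sum_half (T : ℕ) : ∑ j ∈ range T, ((j : ℝ) + 1) * (1 / 2) ^ j ≤ 4 - (2 * T + 4) * (1 / 2) ^ T := by
  induction T with
  | zero => simp
  | succ T ih =>
    rw [sum_range_succ, pow_succ]
    push_cast
    linarith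

open Classical in
lemma FA_le (A : Set ℕ) (T : ℕ) {β C₁ : ℝ} (hβ1 : β ≤ 1) (hC : 0 ≤ C₁)
    (hcnt : ∀ n : ℕ, 1 ≤ n → (((range n).filter (· ∈ A)).card : ℝ) ≤ C₁ * (n : ℝ) ^ β)
    {r : ℝ} (hr0 : 0 ≤ r) (hr1 : r ≤ 1) {N : ℕ} (hN : 1 ≤ N) (hrN : r ^ N ≤ 1 / 2) :
    FA A T r ≤ 4 * C₁ * (N : ℝ) ^ β := by
  unfold FA
  rw [← sum_fiberwise_of_maps_to (s := (range T).filter (· ∈ A)) (t := range T)
    (g := fun a => a / N) (fun a ha => mem_range.mpr
      (lt_of_le_of_lt (Nat.div_le_self _ _) (mem_range.mp (mem_filter.mp ha).1)))]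
  have hN0 : (0 : ℝ) < N := by exact_mod_cast hN
  have h1 : ∀ j ∈ range T, ∑ a ∈ ((range T).filter (· ∈ A)).filter (fun a => a / N = j), r ^ a ≤
      C₁ * (N : ℝ) ^ β * (((j : ℝ) + 1) * (1 / 2) ^ j) := by
    intro j _
    have h2 : ∑ a ∈ ((range T).filter (· ∈ A)).filter (fun a => a / N = j), r ^ a ≤
        ∑ _a ∈ ((range T).filter (· ∈ A)).filter (fun a => a / N = j), (1 / 2 : ℝ) ^ j := by
      refine sum_le_sum fun a ha => ?_
      have h3 := (mem_filter.mp ha).2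
      have h4 : N * j ≤ a := by rw [← h3]; exact Nat.mul_div_le a N
      calc r ^ a ≤ r ^ (N * j) := pow_le_pow_of_le_one hr0 hr1 h4
        _ = (r ^ N) ^ j := pow_mul _ _ _
        _ ≤ _ := pow_le_pow_left₀ (by positivity) hrN j
    rw [sum_const, nsmul_eq_mul] at h2
    have h5 : (((range T).filter (· ∈ A)).filter (fun a => a / N = j)).card ≤
        ((range ((j + 1) * N)).filter (· ∈ A)).card := by
      apply card_le_card
      intro a ha
      rw [mem_filter, mem_filter] at ha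
      rw [mem_filter, mem_range]
      refine ⟨?_, ha.1.2⟩
      rw [← Nat.div_lt_iff_lt_mul (by omega)]
      omega
    have h6 := hcnt ((j + 1) * N) (Nat.mul_pos (Nat.succ_pos j) hN)
    have h7 : ((((j + 1) * N : ℕ)) : ℝ) ^ β ≤ ((j : ℝ) + 1) * (N : ℝ) ^ β := by
      push_cast
      rw [Real.mul_rpow (by positivity) hN0.le]
      apply mul_le_mul_of_nonneg_right _ (by positivity)
      have := Real.rpow_le_rpow_of_exponent_le (x := (j : ℝ) + 1)
        (by have : (0 : ℝ) ≤ j := by positivity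
            linarith) hβ1
      rwa [Real.rpow_one] at this
    have h8 : ((((range T).filter (· ∈ A)).filter (fun a => a / N = j)).card : ℝ) ≤
        C₁ * (((j : ℝ) + 1) * (N : ℝ) ^ β) :=
      (Nat.cast_le.mpr h5).trans (h6.trans (mul_le_mul_of_nonneg_left h7 hC))
    calc _ ≤ _ := h2
      _ ≤ C₁ * (((j : ℝ) + 1) * (N : ℝ) ^ β) * (1 / 2) ^ j :=
          mul_le_mul_of_nonneg_right h8 (by positivity)
      _ = _ := by ring
  refine (sum_le_sum h1).trans ?_
  rw [← mul_sum]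
  have h9 := sum_half T
  have h10 : 0 ≤ (2 * (T : ℝ) + 4) * (1 / 2) ^ T := by positivity
  have h11 : 0 ≤ C₁ * (N : ℝ) ^ β := by positivity
  nlinarith

end Pool.Agent.H711Z.Dombi
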