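import Pool.Agent.H711Z.DombiC

/-!
The final contradiction.
-/

set_option autoImplicit false

namespace Pool.Agent.H711Z.Dombi

open Finset Real Filter

/-- the radii -/
noncomputable def rr (m : ℕ) : ℝ := Real.exp (-(1 / 2 ^ m))

lemma rr_pos (m : ℕ) : 0 < rr m := Real.exp_pos _

lemma rr_lt (m : ℕ) : rr m < 1 := by
  unfold rr
  rw [Real.exp_lt_one_iff]
  have : (0 : ℝ) < 1 / 2 ^ m := by positivity
  linarith

lemma rr_sq (m : ℕ) : rr (m + 1) ^ 2 = rr m := by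
  unfold rr
  rw [← Real.exp_nat_mul]
  congr 1
  push_cast
  field_simp
  ring

lemma rr_mono {m n : ℕ} (h : m ≤ n) : rr m ≤ rr n := by
  unfold rr
  apply Real.exp_le_exp.mpr
  have : (1 : ℝ) / 2 ^ n ≤ 1 / 2 ^ m :=
    one_div_le_one_div_of_le (by positivity) (pow_le_pow_right₀ (by norm_num) h)
  linarith

lemma rr_ge (m : ℕ) : 1 / 3 ≤ rr m := by
  refine le_trans ?_ (rr_mono (Nat.zero_le m))
  unfold rr
  have := Real.exp_neg_one_gt_d9
  norm_num
  linarith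

lemma rr_pow (m : ℕ) : rr m ^ (2 ^ m) ≤ 1 / 2 := by
  unfold rr
  rw [← Real.exp_nat_mul]
  have : ((2 ^ m : ℕ) : ℝ) * -(1 / 2 ^ m) = -1 := by
    push_cast
    field_simp
  rw [this]
  have := Real.exp_neg_one_lt_d9
  linarith

lemma one_sub_rr (m : ℕ) : 1 - rr m ≤ 1 / 2 ^ m := by
  unfold rr
  have := Real.add_one_le_exp (-(1 / 2 ^ m : ℝ))
  linarith

lemma rr_pow_ge {m a : ℕ} (h : 2 * a ≤ 2 ^ m) : 1 / 2 ≤ rr m ^ a := by
  unfold rr
  rw [← Real.exp_nat_mul]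
  have h1 := Real.add_one_le_exp ((a : ℝ) * -(1 / 2 ^ m))
  have h2 : (2 : ℝ) * a ≤ 2 ^ m := by exact_mod_cast h
  have h3 : (a : ℝ) * (1 / 2 ^ m) ≤ 1 / 2 := by
    rw [mul_one_div, div_le_iff₀ (by positivity)]
    linarith
  linarith

lemma FA_mono (A : Set ℕ) (T : ℕ) {r s : ℝ} (hr : 0 ≤ r) (h : r ≤ s) : FA A T r ≤ FA A T s :=
  sum_le_sum fun a _ => pow_le_pow_left₀ hr h a

open Classical in
lemma main_aux {k : ℕ} (hk : 2 ≤ k) {i : ℕ} (hi : i ∈ ({1, 2, 3} : Finset ℕ)) {e : ℝ}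
    (he : 0 < e) (he2 : 2 * e ≤ 1 / k) (A : Set ℕ) (hA : A.Infinite) (n₀ : ℕ)
    (hmono : ∀ n, n₀ ≤ n → RR A i k n ≤ RR A i k (n + 1)) {C₁ : ℝ} (hC : 0 < C₁)
    (hcnt : ∀ n : ℕ, 1 ≤ n → (((range n).filter (· ∈ A)).card : ℝ) ≤
      C₁ * (n : ℝ) ^ ((2 : ℝ) / k - 2 * e)) : False := by
  have hk' : (2 : ℝ) ≤ k := by exact_mod_cast hk
  have hk0 : (0 : ℝ) < k := by linarith
  have h2k : (2 : ℝ) / k ≤ 1 := by rw [div_le_one hk0]; exact hk'
  have h2k' : (2 : ℝ) / k = 2 * (1 / k) := by ring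
  have h1k : (0 : ℝ) < 1 / k := by positivity
  set s : ℝ := 2 / k - e with hs
  set β : ℝ := 2 / k - 2 * e with hβ
  obtain ⟨D, hD, hcore⟩ := core hk hi (e := e) (s := s) he.le (by linarith) (by linarith)
    (by rw [hs]; ring)
  obtain ⟨n₁, hn₁⟩ := exists_pos A hA i hk n₀ hmono
  set C₀ : ℝ := ∑ n ∈ range n₀, (RR A i k n : ℝ) with hC₀
  have hC₀0 : 0 ≤ C₀ := by positivity
  set G : ℝ := 1 + 4 * (2 * C₀ + 2) with hG
  have hG0 : 0 < G := by positivity
  set G' : ℝ := G ^ ((2 : ℝ) / k) with hG'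
  have hG'0 : 0 < G' := by positivity
  obtain ⟨L₀, hL₀⟩ : ∃ L₀ : ℕ, 4 * D + 2 < (((range L₀).filter (· ∈ A)).card : ℝ) := by
    obtain ⟨n, hn⟩ := exists_nat_gt (4 * D + 2)
    obtain ⟨t, ht, htc⟩ := hA.exists_subset_card_eq n
    refine ⟨t.sup id + 1, hn.trans_le ?_⟩
    rw [← htc]
    apply Nat.cast_le.mpr
    apply card_le_card
    intro a ha
    rw [mem_filter, mem_range]
    exact ⟨Nat.lt_succ_of_le (le_sup (f := id) ha), ht ha⟩
  have htend : Tendsto (fun m : ℕ => ((2 : ℝ) ^ m) ^ e) atTop atTop :=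
    (tendsto_rpow_atTop he).comp (tendsto_pow_atTop_atTop_of_one_lt (by norm_num))
  have htend2 : Tendsto (fun m : ℕ => 2 ^ m) atTop atTop :=
    tendsto_pow_atTop_atTop_of_one_lt (by norm_num : 1 < 2)
  obtain ⟨m₀, hm₀a, hm₀b, hm₀c⟩ : ∃ m₀ : ℕ, 32 * D * G' * C₁ ≤ ((2 : ℝ) ^ m₀) ^ e ∧
      2 * n₁ ≤ 2 ^ m₀ ∧ 2 * L₀ ≤ 2 ^ m₀ :=
    ((htend.eventually_ge_atTop _).and ((htend2.eventually_ge_atTop _).and
      (htend2.eventually_ge_atTop _))).exists
  obtain ⟨d, hd⟩ : ∃ d : ℕ, 4 * C₁ * 2 ^ m₀ < (2 : ℝ) ^ d :=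
    pow_unbounded_of_one_lt _ (by norm_num)
  have htend3 := tendsto_pow_const_mul_const_pow_of_abs_lt_one k (r := rr (m₀ + d))
    (by rw [abs_of_pos (rr_pos _)]; exact rr_lt _)
  obtain ⟨T, hTa, hTb, hTc, hTd⟩ : ∃ T : ℕ, (T : ℝ) ^ k * rr (m₀ + d) ^ T ≤ 1 / 4 ∧
      L₀ ≤ T ∧ n₁ ≤ T ∧ 1 ≤ T :=
    ((htend3.eventually_le_const (by norm_num : (0 : ℝ) < 1 / 4)).and
      ((eventually_ge_atTop _).and ((eventually_ge_atTop _).and (eventually_ge_atTop _)))).exists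
  have hlow : 2 * D + 1 < FA A T (rr m₀) := by
    have h1 : ∑ _a ∈ (range L₀).filter (· ∈ A), (1 / 2 : ℝ) ≤ FA A T (rr m₀) := by
      calc ∑ _a ∈ (range L₀).filter (· ∈ A), (1 / 2 : ℝ)
          ≤ ∑ a ∈ (range L₀).filter (· ∈ A), rr m₀ ^ a := by
            refine sum_le_sum fun a ha => rr_pow_ge ?_
            have := mem_range.mp (mem_filter.mp ha).1
            omega
        _ ≤ _ := by
            apply sum_le_sum_of_subset_of_nonneg
            · intro a ha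
              rw [mem_filter, mem_range] at ha ⊢
              exact ⟨by omega, ha.2⟩
            · intro a _ _
              exact pow_nonneg (rr_pos _).le _
    rw [sum_const, nsmul_eq_mul] at h1
    linarith
  have hup : ∀ m : ℕ, FA A T (rr m) ≤ 4 * C₁ * ((2 : ℝ) ^ m) ^ β := by
    intro m
    have := FA_le A T (β := β) (by linarith) hC.le hcnt (rr_pos m).le (rr_lt m).le
      (N := 2 ^ m) Nat.one_le_two_pow (rr_pow m)
    simpa using this
  obtain ⟨m, hm1, hm2, hreg⟩ : ∃ m, m₀ ≤ m ∧ m < m₀ + d ∧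
      FA A T (rr (m + 1)) ≤ 4 * FA A T (rr m) := by
    by_contra hcon
    push Not at hcon
    have h1 : ∀ t, t ≤ d → (4 : ℝ) ^ t ≤ FA A T (rr (m₀ + t)) := by
      intro t
      induction t with
      | zero => intro _; simp only [pow_zero, add_zero]; linarith
      | succ t ih =>
        intro ht
        have h2 := hcon (m₀ + t) (by omega) (by omega)
        have h3 := ih (by omega)
        rw [pow_succ, ← add_assoc]
        linarith
    have h2 := h1 d le_rfl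
    have h3 := hup (m₀ + d)
    have h4 : ((2 : ℝ) ^ (m₀ + d)) ^ β ≤ 2 ^ (m₀ + d) := by
      have := Real.rpow_le_rpow_of_exponent_le (x := (2 : ℝ) ^ (m₀ + d))
        (one_le_pow₀ (by norm_num)) (show β ≤ 1 by linarith)
      rwa [Real.rpow_one] at this
    have h5 : (4 : ℝ) ^ d = 2 ^ d * 2 ^ d := by rw [← mul_pow]; norm_num
    have h6 : 4 * C₁ * ((2 : ℝ) ^ (m₀ + d)) ^ β ≤ 4 * C₁ * 2 ^ (m₀ + d) :=
      mul_le_mul_of_nonneg_left h4 (by positivity)
    rw [pow_add] at h6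
    have h7 : (0 : ℝ) < 2 ^ d := by positivity
    have h8 := mul_lt_mul_of_pos_right hd h7
    rw [pow_add] at h3
    linarith
  set r := rr (m + 1) with hr
  have hr0 : 0 < r := rr_pos _
  have hr1 : r < 1 := rr_lt _
  set HR : ℝ := ∑ a ∈ WW A i k T, r ^ (∑ j, a j) with hHR
  have hT1 : (T : ℝ) ^ k * r ^ T ≤ 1 / 4 := by
    refine le_trans (mul_le_mul_of_nonneg_left ?_ (by positivity)) hTa
    exact pow_le_pow_left₀ hr0.le (rr_mono (by omega)) T
  have hT2 : r ^ T ≤ 1 / 4 := by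
    refine le_trans (le_mul_of_one_le_left (by positivity) ?_) hT1
    exact one_le_pow₀ (by exact_mod_cast hTd)
  have hn1 : 1 / 2 ≤ r ^ n₁ := by
    apply rr_pow_ge
    exact hm₀b.trans (Nat.pow_le_pow_right (by norm_num) (by omega))
  have hge := HR_ge A i hk hTc hn₁ hr0.le hr1.le
  rw [← hHR] at hge
  set X := FA A T r with hX
  have hX0 : 0 ≤ X := FA_nonneg A T hr0.le
  have hle : HR ≤ X ^ k := HR_le A i k T hr0.le
  have h1r : 0 < 1 - r := by linarith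
  have hK : ∀ z : ℂ, ‖z‖ = r → ‖(1 - z) * HA A i k T z‖ ≤ G * ((1 - r) * X ^ k) := by
    intro z hz
    have h1 := K_bound A i k T n₀ hmono hr0.le hr1.le z hz
    rw [← hHR, ← hC₀] at h1
    have h2 : (1 - r) * HR ≤ (1 - r) * X ^ k := mul_le_mul_of_nonneg_left hle h1r.le
    have h3 : 1 / 4 ≤ (1 - r) * X ^ k := by linarith
    rw [hG]
    nlinarith
  have hc := hcore A T r _ (rr_ge _) hr1 (by positivity) hK
  rw [hr, rr_sq, ← hr] at hc
  set Y := FA A T (rr m) with hY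
  have hYlow : 2 * D + 1 < Y := hlow.trans_le (FA_mono A T (rr_pos _).le (rr_mono hm1))
  set N : ℝ := (2 : ℝ) ^ (m + 1) with hN
  have hN0 : 0 < N := by positivity
  have e1 : (G * ((1 - r) * X ^ k)) ^ ((2 : ℝ) / k) * (1 - r) ^ (-e) =
      G' * X ^ 2 * (1 - r) ^ s := by
    rw [Real.mul_rpow hG0.le (by positivity), Real.mul_rpow h1r.le (by positivity),
      ← Real.rpow_natCast X k, ← Real.rpow_mul hX0, mul_div_cancel₀ _ hk0.ne', hs,
      Real.rpow_sub h1r, Real.rpow_neg h1r.le]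
    have : X ^ (2 : ℝ) = X ^ 2 := by norm_cast
    rw [this]
    ring
  have e2 : (1 - r) ^ s ≤ N ^ (-s) := by
    have h1 : 1 - r ≤ 1 / N := one_sub_rr (m + 1)
    have h2 := Real.rpow_le_rpow h1r.le h1 (show 0 ≤ s by linarith)
    rwa [one_div, Real.inv_rpow hN0.le, ← Real.rpow_neg hN0.le] at h2
  have e3 : X ≤ 4 * C₁ * N ^ β := hup (m + 1)
  have e4 : N ^ β * N ^ (-s) * N ^ e = 1 := by
    rw [← Real.rpow_add hN0, ← Real.rpow_add hN0]
    have : β + -s + e = 0 := by rw [hβ, hs]; ring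
    rw [this, Real.rpow_zero]
  have e5 : 32 * D * G' * C₁ ≤ N ^ e :=
    hm₀a.trans (Real.rpow_le_rpow (by positivity) (pow_le_pow_right₀ (by norm_num) (by omega))
      he.le)
  set P := N ^ β * N ^ (-s) with hP
  have hP0 : 0 < P := by positivity
  have e6 : P * (32 * D * G' * C₁) ≤ 1 := by
    rw [← e4]
    exact mul_le_mul_of_nonneg_left e5 hP0.le
  have hY0 : 0 < Y := by linarith
  have e7 : X ^ 2 * (1 - r) ^ s ≤ (4 * Y) * (4 * C₁ * N ^ β) * N ^ (-s) := by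
    apply mul_le_mul _ e2 (by positivity) (by positivity)
    rw [sq]
    exact mul_le_mul hreg e3 hX0 (by positivity)
  have e8 : D * (G' * X ^ 2 * (1 - r) ^ s) ≤ Y / 2 := by
    calc D * (G' * X ^ 2 * (1 - r) ^ s) = D * G' * (X ^ 2 * (1 - r) ^ s) := by ring
      _ ≤ D * G' * ((4 * Y) * (4 * C₁ * N ^ β) * N ^ (-s)) :=
          mul_le_mul_of_nonneg_left e7 (by positivity)
      _ = (P * (32 * D * G' * C₁)) * (Y / 2) := by rw [hP]; ring
      _ ≤ 1 * (Y / 2) := mul_le_mul_of_nonneg_right e6 (by positivity)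
      _ = _ := one_mul _
  rw [e1, mul_add] at hc
  linarith

theorem main {k : ℕ} (hk : 2 ≤ k) {i : ℕ} (hi : i ∈ ({1, 2, 3} : Finset ℕ)) {ε : ℝ}
    (hε : 0 < ε) (A : Set ℕ) (hA : A.Infinite) (n₀ : ℕ)
    (hmono : ∀ n, n₀ ≤ n → RR A i k n ≤ RR A i k (n + 1)) :
    ¬ Asymptotics.IsBigO Filter.atTop (fun n : ℕ => ((A ∩ Set.Icc 1 n).ncard : ℝ))
      (fun n : ℕ => (n : ℝ) ^ ((2 : ℝ) / (k : ℝ) - ε)) := by
  classical
  intro hO
  obtain ⟨C, hC0, hC⟩ := hO.exists_pos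
  obtain ⟨n₂, hn₂⟩ := eventually_atTop.mp hC.bound
  have hk' : (2 : ℝ) ≤ k := by exact_mod_cast hk
  have h1k : (0 : ℝ) < 1 / k := by positivity
  have h2k' : (2 : ℝ) / k = 2 * (1 / k) := by ring
  set e : ℝ := min ε (1 / k) / 2 with he
  have hmin1 := min_le_left ε (1 / k)
  have hmin2 := min_le_right ε (1 / k)
  have he0 : 0 < e := by rw [he]; exact half_pos (lt_min hε h1k)
  refine main_aux hk hi he0 (by rw [he]; linarith) A hA n₀ hmono (C₁ := 1 + C + n₂)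
    (by positivity) fun n hn => ?_
  have hn' : (1 : ℝ) ≤ n := by exact_mod_cast hn
  have h1 : 1 ≤ (n : ℝ) ^ ((2 : ℝ) / k - 2 * e) :=
    Real.one_le_rpow hn' (by rw [he]; linarith)
  by_cases h : n₂ ≤ n
  · have h2 := hn₂ n h
    rw [Real.norm_of_nonneg (by positivity), Real.norm_of_nonneg (by positivity)] at h2
    have h3 : (n : ℝ) ^ ((2 : ℝ) / k - ε) ≤ (n : ℝ) ^ ((2 : ℝ) / k - 2 * e) :=
      Real.rpow_le_rpow_of_exponent_le hn' (by rw [he]; linarith)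
    have h4 : ((range n).filter (· ∈ A)).card ≤ (A ∩ Set.Icc 1 n).ncard + 1 := by
      rw [← Set.ncard_coe_finset]
      refine le_trans (Set.ncard_le_ncard (t := insert 0 (A ∩ Set.Icc 1 n)) ?_
        (((Set.finite_Icc 1 n).inter_of_right A).insert 0)) (Set.ncard_insert_le _ _)
      intro a ha
      simp only [coe_filter, mem_range, Set.mem_setOf_eq] at ha
      rcases Nat.eq_zero_or_pos a with h0 | h0
      · exact Or.inl h0
      · exact Or.inr ⟨ha.2, h0, ha.1.le⟩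
    have h5 : (((range n).filter (· ∈ A)).card : ℝ) ≤ (A ∩ Set.Icc 1 n).ncard + 1 := by
      exact_mod_cast h4
    have h6 := mul_le_mul_of_nonneg_left h3 hC0.le
    have h7 : (0 : ℝ) ≤ n₂ * (n : ℝ) ^ ((2 : ℝ) / k - 2 * e) := by positivity
    nlinarith
  · have h2 : ((range n).filter (· ∈ A)).card ≤ n₂ :=
      (card_filter_le _ _).trans (by rw [card_range]; omega)
    have h3 : (((range n).filter (· ∈ A)).card : ℝ) ≤ n₂ := by exact_mod_cast h2
    have h4 : (0 : ℝ) ≤ n₂ := by positivity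
    nlinarith

end Pool.Agent.H711Z.Dombi
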