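import Mathlib

/-!
The two-thirds bound for locating-total dominating sets in twin-free graphs.
-/

set_option autoImplicit false

namespace Pool.Agent.H711Z.LTD

open Finset

section Families

variable {V : Type} [DecidableEq V]

lemma step {𝓕 : Finset (Finset V)} {T F F' : Finset V} {z : V} (hF : F ∈ 𝓕) (hF' : F' ∈ 𝓕)
    (h : F ∩ T = F' ∩ T) (hz : z ∈ F) (hz' : z ∉ F') :
    (𝓕.image (· ∩ T)).card < (𝓕.image (· ∩ insert z T)).card := by
  have h1 : 𝓕.image (· ∩ T) = (𝓕.image (· ∩ insert z T)).image (· ∩ T) := by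
    rw [image_image]
    apply image_congr
    intro H _
    simp only [Function.comp]
    rw [inter_assoc, inter_eq_right.mpr (subset_insert z T)]
  rw [h1]
  refine lt_of_le_of_ne card_image_le (fun h2 => ?_)
  have h3 := card_image_iff.mp h2
  have h4 : F ∩ insert z T = F' ∩ insert z T := by
    apply h3 (mem_coe.mpr (mem_image_of_mem _ hF)) (mem_coe.mpr (mem_image_of_mem _ hF'))
    show F ∩ insert z T ∩ T = F' ∩ insert z T ∩ T
    rw [inter_assoc, inter_assoc, inter_eq_right.mpr (subset_insert z T), h]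
  have h5 : z ∈ F' ∩ insert z T := h4 ▸ mem_inter.mpr ⟨hz, mem_insert_self _ _⟩
  exact hz' (mem_inter.mp h5).1

lemma bondy (𝓕 : Finset (Finset V)) (S A : Finset V) (hA : A ⊆ S) (hS : ∀ F ∈ 𝓕, F ⊆ S) :
    ∃ T, A ⊆ T ∧ T ⊆ S ∧ (∀ F ∈ 𝓕, ∀ F' ∈ 𝓕, F ∩ T = F' ∩ T → F = F') ∧
      T.card + (𝓕.image (· ∩ A)).card ≤ A.card + 𝓕.card := by
  obtain ⟨T, hT, hmax⟩ := exists_max_image (S.powerset.filter (fun T => A ⊆ T ∧
    T.card + (𝓕.image (· ∩ A)).card ≤ A.card + (𝓕.image (· ∩ T)).card)) card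
    ⟨A, by simp [hA]⟩
  simp only [mem_filter, mem_powerset] at hT hmax
  have key : ∀ F ∈ 𝓕, ∀ F' ∈ 𝓕, F ∩ T = F' ∩ T → F ⊆ F' := by
    intro F hF F' hF' h z hz
    by_contra hz'
    have hzT : z ∉ T := fun hzT => hz' (mem_inter.mp (h ▸ mem_inter.mpr ⟨hz, hzT⟩)).1
    have h1 := step hF hF' h hz hz'
    have h2 := hmax (insert z T) ⟨insert_subset (hS F hF hz) hT.1,
      hT.2.1.trans (subset_insert _ _), by rw [card_insert_of_notMem hzT]; omega⟩
    rw [card_insert_of_notMem hzT] at h2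
    omega
  refine ⟨T, hT.2.1, hT.1, fun F hF F' hF' h =>
    Subset.antisymm (key F hF F' hF' h) (key F' hF' F hF h.symm), ?_⟩
  have := card_image_le (s := 𝓕) (f := (· ∩ T))
  omega

lemma transversal {β : Type} [DecidableEq β] (g : V → β) (W Z : Finset V) (hZ : Z ⊆ W)
    (hinj : Set.InjOn g Z) :
    ∃ R, Z ⊆ R ∧ R ⊆ W ∧ Set.InjOn g R ∧ R.image g = W.image g := by
  obtain ⟨u, h1, h2, h3, h4⟩ := hinj.exists_subset_injOn_subset_range_eq
    (s := (W : Set V)) (coe_subset.mpr hZ)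
  have hfin : u.Finite := W.finite_toSet.subset h2
  refine ⟨hfin.toFinset, ?_, ?_, by simpa using h4, ?_⟩
  · intro x hx
    simpa using h1 hx
  · intro x hx
    exact h2 (by simpa using hx)
  · apply coe_injective
    simpa using h3

end Families

variable {V : Type} [Fintype V] [DecidableEq V] (G : SimpleGraph V) [DecidableRel G.Adj]

/-- neighbourhood -/
def N (v : V) : Finset V := univ.filter (G.Adj v)

/-- number of traces on `D` of vertices outside `D` -/
def kk (D : Finset V) : ℕ := (Dᶜ.image (fun v => N G v ∩ D)).card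

/-- total domination -/
def TD (D : Finset V) : Prop := ∀ v, ∃ u ∈ D, G.Adj v u

/-- location -/
def Loc (D : Finset V) : Prop := ∀ u v, u ∉ D → v ∉ D → N G u ∩ D = N G v ∩ D → u = v

/-- twice the number of edges inside `S` -/
def ee (S : Finset V) : ℕ := ((S ×ˢ S).filter (fun p => G.Adj p.1 p.2)).card

variable {G}

@[simp] lemma mem_N {v u : V} : u ∈ N G v ↔ G.Adj v u := by simp [N]

lemma inter_of_subset {u v : V} {D F : Finset V} (h : D ⊆ F) (h1 : N G u ∩ F = N G v ∩ F) :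
    N G u ∩ D = N G v ∩ D := by
  rw [← inter_eq_right.mpr h, ← inter_assoc, ← inter_assoc, h1]

lemma adj_of_eq {u v z : V} {D : Finset V} (h : N G u ∩ D = N G v ∩ D) (hz : z ∈ D)
    (h1 : G.Adj u z) : G.Adj v z :=
  mem_N.mp (mem_inter.mp (h ▸ mem_inter.mpr ⟨mem_N.mpr h1, hz⟩)).1

lemma eq_singleton_iff {v s : V} {S : Finset V} :
    N G v ∩ S = {s} ↔ (G.Adj v s ∧ s ∈ S) ∧ ∀ x, G.Adj v x → x ∈ S → x = s := by
  rw [eq_singleton_iff_unique_mem]
  simp

lemma first_set {D : Finset V} (hD : TD G D) :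
    ∃ F, TD G F ∧ Loc G F ∧ F.card + kk G D = Fintype.card V := by
  obtain ⟨R, -, h2, h3, h4⟩ := transversal (fun v => N G v ∩ D) Dᶜ ∅ (empty_subset _) (by simp)
  have hDR : D ⊆ Rᶜ := fun x hx => mem_compl.mpr fun h => mem_compl.mp (h2 h) hx
  refine ⟨Rᶜ, fun v => ?_, fun u v hu hv h => ?_, ?_⟩
  · obtain ⟨u, hu, h⟩ := hD v
    exact ⟨u, hDR hu, h⟩
  · exact h3 (by simpa using hu) (by simpa using hv) (inter_of_subset hDR h)
  · unfold kk
    rw [← h4, card_image_of_injOn h3, card_compl]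
    have := card_le_univ R
    omega

/-- a total dominating set in which every vertex has an external private neighbour or is the
only neighbour in the set of a vertex that has one -/
lemma henning (hiso : ∀ v : V, ∃ u : V, G.Adj v u)
    (htw : ∀ u v : V, u ≠ v → ∃ z, z ≠ u ∧ z ≠ v ∧ ¬ (G.Adj u z ↔ G.Adj v z)) :
    ∃ S, TD G S ∧ ∀ b ∈ S, (∃ p, p ∉ S ∧ N G p ∩ S = {b}) ∨
      ∃ a ∈ S, N G a ∩ S = {b} ∧ ∃ p, p ∉ S ∧ N G p ∩ S = {a} := by
  classical
  obtain ⟨S₀, hS₀, hmin⟩ := exists_min_image (univ.filter (fun S : Finset V => TD G S)) card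
    ⟨univ, by simpa [TD] using hiso⟩
  obtain ⟨S, hS, hmax⟩ := exists_max_image
    (univ.filter (fun S : Finset V => TD G S ∧ S.card = S₀.card)) (ee G)
    ⟨S₀, by simpa using hS₀⟩
  simp only [mem_filter, mem_univ, true_and] at hS₀ hmin hS hmax
  have hpriv : ∀ b ∈ S, ∃ v, N G v ∩ S = {b} := by
    intro b hb
    by_contra hcon
    have h1 : TD G (S.erase b) := by
      intro v
      by_contra h2
      push Not at h2
      apply hcon
      have h3 : ∀ x, G.Adj v x → x ∈ S → x = b := by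
        intro x hx hxS
        by_contra hxb
        exact h2 x (mem_erase.mpr ⟨hxb, hxS⟩) hx
      obtain ⟨u, hu, h⟩ := hS.1 v
      exact ⟨v, eq_singleton_iff.mpr ⟨⟨h3 u h hu ▸ h, hb⟩, h3⟩⟩
    have h2 := hmin _ h1
    rw [card_erase_of_mem hb] at h2
    have := card_pos.mpr ⟨b, hb⟩
    omega
  have swap : ∀ b v w, N G b ∩ S = {v} → N G v ∩ S = {b} → (∀ p, p ∉ S → N G p ∩ S ≠ {b}) →
      (∀ p, p ∉ S → N G p ∩ S ≠ {v}) → w ≠ v → G.Adj b w → ¬ G.Adj v w → False := by
    intro b v w hb hv hb' hv' hwv hbw hvw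
    rw [eq_singleton_iff] at hb hv
    have hwS : w ∉ S := fun h => hwv (hb.2 w hbw h)
    obtain ⟨s, hws, hsS, hsb⟩ : ∃ s, G.Adj w s ∧ s ∈ S ∧ s ≠ b := by
      by_contra hcon
      push Not at hcon
      exact hb' w hwS (eq_singleton_iff.mpr ⟨⟨hbw.symm, hv.1.2⟩, hcon⟩)
    have hsv : s ≠ v := fun h => hvw (h ▸ hws.symm)
    have hbv : b ≠ v := hb.1.1.ne
    set S' := insert w (S.erase v) with hS'
    have hTD : TD G S' := by
      intro u
      by_contra h2
      push Not at h2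
      have h3 : ∀ x, G.Adj u x → x ∈ S → x = v := by
        intro x hx hxS
        by_contra hxb
        exact h2 x (mem_insert_of_mem (mem_erase.mpr ⟨hxb, hxS⟩)) hx
      obtain ⟨x, hx, h⟩ := hS.1 u
      have huv : G.Adj u v := h3 x h hx ▸ h
      by_cases huS : u ∈ S
      · have : u = b := hv.2 u huv.symm huS
        exact h2 w (mem_insert_self _ _) (this ▸ hbw)
      · exact hv' u huS (eq_singleton_iff.mpr ⟨⟨huv, hb.1.2⟩, h3⟩)
    have hcard : S'.card = S₀.card := by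
      rw [hS', card_insert_of_notMem (fun h => hwS (mem_of_mem_erase h)),
        card_erase_of_mem hb.1.2, ← hS.2]
      have := card_pos.mpr ⟨v, hb.1.2⟩
      omega
    have h1 := hmax S' ⟨hTD, hcard⟩
    set P := ((S.erase v ×ˢ S.erase v).filter (fun p => G.Adj p.1 p.2)) with hP
    have h2 : ee G S ≤ P.card + 2 := by
      have : (S ×ˢ S).filter (fun p => G.Adj p.1 p.2) ⊆ insert (v, b) (insert (b, v) P) := by
        rintro ⟨x, y⟩ hxy
        simp only [mem_filter, mem_product] at hxy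
        simp only [hP, mem_insert, Prod.mk.injEq, mem_filter, mem_product, mem_erase]
        by_cases hx : x = v
        · left
          exact ⟨hx, hv.2 y (hx ▸ hxy.2) hxy.1.2⟩
        · by_cases hy : y = v
          · right; left
            exact ⟨hv.2 x (hy ▸ hxy.2.symm) hxy.1.1, hy⟩
          · right; right
            exact ⟨⟨⟨hx, hxy.1.1⟩, hy, hxy.1.2⟩, hxy.2⟩
      have h3 := card_le_card this
      have h4 := card_insert_le (v, b) (insert (b, v) P)
      have h5 := card_insert_le (b, v) P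
      unfold ee
      omega
    have h3 : P.card + 3 ≤ ee G S' := by
      have hsub : insert (w, s) (insert (w, b) (insert (b, w) P)) ⊆
          (S' ×ˢ S').filter (fun p => G.Adj p.1 p.2) := by
        have a1 : w ∈ S' := mem_insert_self _ _
        have a2 : b ∈ S' := mem_insert_of_mem (mem_erase.mpr ⟨hbv, hv.1.2⟩)
        have a3 : s ∈ S' := mem_insert_of_mem (mem_erase.mpr ⟨hsv, hsS⟩)
        refine insert_subset (by simp [a1, a3, hws]) (insert_subset (by simp [a1, a2, hbw.symm])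
          (insert_subset (by simp [a1, a2, hbw]) ?_))
        exact filter_subset_filter _
          (product_subset_product (subset_insert _ _) (subset_insert _ _))
      have h4 := card_le_card hsub
      have hwb : w ≠ b := hbw.ne.symm
      have n1 : (b, w) ∉ P := by simp [hP, hwS]
      have n2 : (w, b) ∉ insert (b, w) P := by simp [hP, hwS, hwb]
      have n3 : (w, s) ∉ insert (w, b) (insert (b, w) P) := by simp [hP, hwS, hwb, hsb]
      rw [card_insert_of_notMem n3, card_insert_of_notMem n2, card_insert_of_notMem n1] at h4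
      exact h4
    omega
  refine ⟨S, hS.1, fun b hb => ?_⟩
  by_contra hcon
  push Not at hcon
  obtain ⟨hb', hcon⟩ := hcon
  obtain ⟨v, hv⟩ := hpriv b hb
  have hvS : v ∈ S := by
    by_contra h
    exact hb' v h hv
  have hv' := hcon v hvS hv
  obtain ⟨v', hv2⟩ := hpriv v hvS
  have hv'S : v' ∈ S := by
    by_contra h
    exact hv' v' h hv2
  have hbv : v' = b := (eq_singleton_iff.mp hv).2 v' (eq_singleton_iff.mp hv2).1.1.symm hv'S
  rw [hbv] at hv2
  have hne : b ≠ v := (eq_singleton_iff.mp hv2).1.1.ne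
  obtain ⟨z, hzb, hzv, hz⟩ := htw b v hne
  by_cases h : G.Adj b z
  · exact swap b v z hv2 hv hb' hv' hzv h (fun h' => hz ⟨fun _ => h', fun _ => h⟩)
  · have h' : G.Adj v z := by
      by_contra h'
      exact hz ⟨fun h1 => absurd h1 h, fun h1 => absurd h1 h'⟩
    exact swap v b z hv hv2 hv' hb' hzb h' h

lemma second_set (hiso : ∀ v : V, ∃ u : V, G.Adj v u)
    (htw : ∀ u v : V, u ≠ v → ∃ z, z ≠ u ∧ z ≠ v ∧ ¬ (G.Adj u z ↔ G.Adj v z)) :
    ∃ D F, TD G D ∧ TD G F ∧ Loc G F ∧ F.card ≤ 2 * kk G D := by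
  classical
  obtain ⟨S, hS, hH⟩ := henning hiso htw
  set A := S.filter (fun a => ∃ p, p ∉ S ∧ N G p ∩ S = {a}) with hA
  have hAS : A ⊆ S := filter_subset _ _
  set 𝓕 := insert ∅ (Sᶜ.image (fun v => N G v ∩ S)) with h𝓕
  obtain ⟨T, hAT, hTS, hsep, hTc⟩ := bondy 𝓕 S A hAS (by
    intro F hF
    rcases mem_insert.mp hF with h | h
    · rw [h]; exact empty_subset _
    · obtain ⟨v, -, rfl⟩ := mem_image.mp h
      exact inter_subset_right)
  have hT : T.card ≤ kk G S := by
    have h1 : 𝓕.card ≤ kk G S + 1 := card_insert_le _ _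
    have h2 : insert ∅ (A.image singleton) ⊆ 𝓕.image (· ∩ A) := by
      refine insert_subset (mem_image.mpr ⟨∅, mem_insert_self _ _, by simp⟩) ?_
      intro F hF
      obtain ⟨a, ha, rfl⟩ := mem_image.mp hF
      obtain ⟨p, hp, hpa⟩ := (mem_filter.mp ha).2
      refine mem_image.mpr ⟨{a}, mem_insert_of_mem (mem_image.mpr ⟨p, mem_compl.mpr hp, hpa⟩), ?_⟩
      exact singleton_inter_of_mem ha
    have h3 := card_le_card h2
    rw [card_insert_of_notMem (by simp),
      card_image_of_injective _ singleton_injective] at h3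
    omega
  have hmemF : ∀ u, u ∉ S → N G u ∩ S ∈ 𝓕 := fun u hu =>
    mem_insert_of_mem (mem_image.mpr ⟨u, mem_compl.mpr hu, rfl⟩)
  have hST : ∀ u, N G u ∩ S ∩ T = N G u ∩ T := fun u => by
    rw [inter_assoc, inter_eq_right.mpr hTS]
  have hT1 : ∀ u v, u ∉ S → v ∉ S → N G u ∩ T = N G v ∩ T → N G u ∩ S = N G v ∩ S := by
    intro u v hu hv h
    exact hsep _ (hmemF u hu) _ (hmemF v hv) (by rw [hST, hST, h])
  have hT2 : ∀ u, u ∉ S → ∃ t ∈ T, G.Adj u t := by
    intro u hu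
    by_contra hcon
    push Not at hcon
    have h1 : N G u ∩ S = ∅ := by
      apply hsep _ (hmemF u hu) _ (mem_insert_self _ _)
      rw [hST, empty_inter, eq_empty_iff_forall_notMem]
      intro t ht
      exact hcon t (mem_inter.mp ht).2 (mem_N.mp (mem_inter.mp ht).1)
    obtain ⟨s, hs, h⟩ := hS u
    have : s ∈ N G u ∩ S := mem_inter.mpr ⟨mem_N.mpr h, hs⟩
    rw [h1] at this
    simp at this
  obtain ⟨D, hD, hmax⟩ := exists_max_image (univ.filter (fun D : Finset V => S ⊆ D ∧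
    D.card + kk G S ≤ S.card + kk G D)) card ⟨S, by simp⟩
  simp only [mem_filter, mem_univ, true_and] at hD hmax
  have hSD := hD.1
  -- vertices outside `D` having a class-mate cannot split a class
  have hsplit : ∀ u v z z', u ∉ D → v ∉ D → z ∉ D → z' ∉ D → z' ≠ z → z ≠ u → z ≠ v →
      N G z' ∩ D = N G z ∩ D → N G u ∩ D = N G v ∩ D → G.Adj u z → G.Adj v z := by
    intro u v z z' hu hv hz hz' hzz hzu hzv h1 h2 h3
    by_contra h4
    have hu' : u ∈ (insert z D)ᶜ := by simp [hu, hzu.symm]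
    have hv' : v ∈ (insert z D)ᶜ := by simp [hv, hzv.symm]
    have h5 := step (𝓕 := (insert z D)ᶜ.image (N G)) (T := D) (z := z) (mem_image_of_mem _ hu')
      (mem_image_of_mem _ hv') h2 (mem_N.mpr h3) (fun h => h4 (mem_N.mp h))
    rw [image_image, image_image] at h5
    have h6 : kk G D ≤ ((insert z D)ᶜ.image ((· ∩ D) ∘ N G)).card := by
      apply card_le_card
      intro F hF
      obtain ⟨x, hx, rfl⟩ := mem_image.mp hF
      by_cases hxz : x = z
      · exact mem_image.mpr ⟨z', by simp [hz', hzz], by rw [hxz]; exact h1⟩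
      · exact mem_image.mpr ⟨x, by simp [mem_compl.mp hx, hxz], rfl⟩
    have h7 : kk G D < kk G (insert z D) := lt_of_le_of_lt h6 h5
    have h8 := hmax (insert z D) ⟨hSD.trans (subset_insert _ _),
      by rw [card_insert_of_notMem hz]; omega⟩
    rw [card_insert_of_notMem hz] at h8
    omega
  set X := Dᶜ.filter (fun x => ∀ y, y ∉ D → N G y ∩ D = N G x ∩ D → y = x) with hX
  set F₀ := T ∪ (D \ S) ∪ X with hF₀
  have hTF : T ⊆ F₀ := subset_union_left.trans subset_union_left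
  have hsepF : ∀ u v, u ∉ D → v ∉ D → N G u ∩ F₀ = N G v ∩ F₀ → u = v := by
    intro u v hu hv h
    by_contra huv
    have h1 := hT1 u v (fun h => hu (hSD h)) (fun h => hv (hSD h)) (inter_of_subset hTF h)
    have h2 : N G u ∩ D = N G v ∩ D := by
      ext z
      simp only [mem_inter, mem_N]
      by_cases hzS : z ∈ S
      · exact ⟨fun h3 => ⟨adj_of_eq h1 hzS h3.1, h3.2⟩,
          fun h3 => ⟨adj_of_eq h1.symm hzS h3.1, h3.2⟩⟩
      · have : z ∈ D → z ∈ F₀ := fun hzD =>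
          mem_union_left _ (mem_union_right _ (mem_sdiff.mpr ⟨hzD, hzS⟩))
        exact ⟨fun h3 => ⟨adj_of_eq h (this h3.2) h3.1, h3.2⟩,
          fun h3 => ⟨adj_of_eq h.symm (this h3.2) h3.1, h3.2⟩⟩
    obtain ⟨z, hzu, hzv, hz⟩ := htw u v huv
    apply hz
    by_cases hzD : z ∈ D
    · exact ⟨adj_of_eq h2 hzD, adj_of_eq h2.symm hzD⟩
    by_cases hzX : z ∈ X
    · have : z ∈ F₀ := mem_union_right _ hzX
      exact ⟨adj_of_eq h this, adj_of_eq h.symm this⟩
    obtain ⟨z', hz', h3, h4⟩ : ∃ z', z' ∉ D ∧ N G z' ∩ D = N G z ∩ D ∧ z' ≠ z := by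
      by_contra hcon
      push Not at hcon
      exact hzX (mem_filter.mpr ⟨mem_compl.mpr hzD, hcon⟩)
    exact ⟨hsplit u v z z' hu hv hzD hz' h4 hzu hzv h3 h2,
      hsplit v u z z' hv hu hzD hz' h4 hzv hzu h3 h2.symm⟩
  have hB : ∀ b ∈ S, b ∉ T → ∃ a ∈ T, N G a ∩ S = {b} := by
    intro b hb hbT
    rcases hH b hb with h | ⟨a, ha, h1, h2⟩
    · exact absurd (hAT (mem_filter.mpr ⟨hb, h⟩)) hbT
    · exact ⟨a, hAT (mem_filter.mpr ⟨ha, h2⟩), h1⟩
  set Z := Dᶜ.filter (fun y => ∃ b ∈ S, b ∉ T ∧ N G y ∩ F₀ = N G b ∩ F₀) with hZ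
  have hZinj : Set.InjOn (fun v => N G v ∩ D) Z := by
    intro y hy y' hy' h
    obtain ⟨hy1, b, hb, hbT, hyb⟩ := mem_filter.mp hy
    obtain ⟨hy1', b', hb', hbT', hyb'⟩ := mem_filter.mp hy'
    obtain ⟨a, ha, hab⟩ := hB b hb hbT
    rw [eq_singleton_iff] at hab
    have h1 : G.Adj y a := adj_of_eq hyb.symm (hTF ha) hab.1.1.symm
    have h2 : G.Adj y' a := adj_of_eq h (hSD (hTS ha)) h1
    have h3 : G.Adj b' a := adj_of_eq hyb' (hTF ha) h2
    have h4 : b' = b := hab.2 b' h3.symm hb'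
    exact hsepF y y' (mem_compl.mp hy1) (mem_compl.mp hy1') (by rw [hyb, hyb', h4])
  obtain ⟨R, hZR, hRD, hRinj, hRim⟩ :=
    transversal (fun v => N G v ∩ D) Dᶜ Z (filter_subset _ _) hZinj
  have hRep : ∀ p, p ∉ D → ∃ r ∈ R, N G r ∩ D = N G p ∩ D := by
    intro p hp
    have : N G p ∩ D ∈ R.image (fun v => N G v ∩ D) := by
      rw [hRim]
      exact mem_image_of_mem _ (mem_compl.mpr hp)
    exact mem_image.mp this
  have hXR : X ⊆ R := by
    intro x hx
    obtain ⟨hx1, hx2⟩ := mem_filter.mp hx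
    obtain ⟨r, hr, h⟩ := hRep x (mem_compl.mp hx1)
    exact hx2 r (mem_compl.mp (hRD hr)) h ▸ hr
  set F := T ∪ (D \ S) ∪ R with hF
  have hF0F : F₀ ⊆ F := union_subset_union Subset.rfl hXR
  refine ⟨D, F, fun v => ?_, fun v => ?_, fun u v hu hv h => ?_, ?_⟩
  · obtain ⟨u, hu, h⟩ := hS v
    exact ⟨u, hSD hu, h⟩
  · by_cases hvS : v ∈ S
    · rcases hH v hvS with ⟨p, hp, h⟩ | ⟨a, ha, h1, h2⟩
      · have h1 : G.Adj p v := (eq_singleton_iff.mp h).1.1
        by_cases hpD : p ∈ D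
        · exact ⟨p, mem_union_left _ (mem_union_right _ (mem_sdiff.mpr ⟨hpD, hp⟩)), h1.symm⟩
        · obtain ⟨r, hr, h2⟩ := hRep p hpD
          exact ⟨r, mem_union_right _ hr, (adj_of_eq h2.symm (hSD hvS) h1).symm⟩
      · exact ⟨a, hF0F (hTF (hAT (mem_filter.mpr ⟨ha, h2⟩))),
          (eq_singleton_iff.mp h1).1.1.symm⟩
    · obtain ⟨t, ht, h⟩ := hT2 v hvS
      exact ⟨t, hF0F (hTF ht), h⟩
  · have h0 := inter_of_subset hF0F h
    have hin : ∀ w, w ∉ F → w ∈ D → w ∈ S ∧ w ∉ T := by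
      intro w hw hwD
      refine ⟨?_, fun h => hw (hF0F (hTF h))⟩
      by_contra hwS
      exact hw (mem_union_left _ (mem_union_right _ (mem_sdiff.mpr ⟨hwD, hwS⟩)))
    by_cases huD : u ∈ D
    · obtain ⟨huS, huT⟩ := hin u hu huD
      by_cases hvD : v ∈ D
      · obtain ⟨a, ha, hab⟩ := hB u huS huT
        rw [eq_singleton_iff] at hab
        exact (hab.2 v (adj_of_eq h0 (hTF ha) hab.1.1.symm).symm (hin v hv hvD).1).symm
      · exact absurd (mem_union_right _ (hZR (mem_filter.mpr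
          ⟨mem_compl.mpr hvD, u, huS, huT, h0.symm⟩))) hv
    · by_cases hvD : v ∈ D
      · obtain ⟨hvS, hvT⟩ := hin v hv hvD
        exact absurd (mem_union_right _ (hZR (mem_filter.mpr
          ⟨mem_compl.mpr huD, v, hvS, hvT, h0⟩))) hu
      · exact hsepF u v huD hvD h0
  · have h1 : R.card = kk G D := by
      unfold kk
      rw [← hRim, card_image_of_injOn hRinj]
    have h2 : F.card ≤ (T ∪ (D \ S)).card + R.card := card_union_le _ _
    have h3 : (T ∪ (D \ S)).card ≤ T.card + (D \ S).card := card_union_le _ _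
    have h4 := card_sdiff_add_card_eq_card hSD
    have h5 := hD.2
    omega

theorem main (hiso : ∀ v : V, ∃ u : V, G.Adj v u)
    (htw : ∀ u v : V, u ≠ v → ∃ z, z ≠ u ∧ z ≠ v ∧ ¬ (G.Adj u z ↔ G.Adj v z)) :
    ∃ F, TD G F ∧ Loc G F ∧ 3 * F.card ≤ 2 * Fintype.card V := by
  obtain ⟨D, F, hD, hF1, hF2, hF3⟩ := second_set hiso htw
  obtain ⟨F', h1, h2, h3⟩ := first_set hD
  rcases le_total F.card F'.card with h | h
  · exact ⟨F, hF1, hF2, by omega⟩
  · exact ⟨F', h1, h2, by omega⟩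

end Pool.Agent.H711Z.LTD
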