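import Mathlib

/-!
Six points in three-space whose max-sum matching has closed diametral balls with empty
intersection.
-/

set_option autoImplicit false

namespace Pool.Agent.H711Z.MaxSum

/-- integer coordinates of the six points -/
def P : Fin 6 → Fin 3 → ℤ :=
  ![![-43, 3, 0], ![1, 2, 0], ![-5, -66, -139], ![-18, -21, -1], ![-4, -101, 174], ![-17, -20, -1]]

/-- the six points -/
noncomputable def p (i : Fin 6) : EuclideanSpace ℝ (Fin 3) := WithLp.toLp 2 (fun k => (P i k : ℝ))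

/-- squared distances -/
def N (i j : Fin 6) : ℤ := (P i 0 - P j 0) ^ 2 + (P i 1 - P j 1) ^ 2 + (P i 2 - P j 2) ^ 2

/-- the matching -/
def s : Fin 6 → Fin 6 := ![1, 0, 3, 2, 5, 4]

lemma s_s : ∀ i, s (s i) = i := by decide

/-- the matching as a permutation -/
def σ : Equiv.Perm (Fin 6) := ⟨s, s, s_s, s_s⟩

/-- dual potentials, scaled by 200 -/
def y : Fin 6 → ℤ := ![-31651, -32592, -9440, -34459, 0, -34391]

/-- lower bounds of the matched distances, scaled by 200 -/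
def L : Fin 6 → ℤ := ![8802, 8802, 29146, 29146, 38654, 38654]

/-- upper bounds of all distances, scaled by 200 -/
def U : Fin 6 → Fin 6 → ℤ :=
  ![![1, 8803, 31954, 6934, 41286, 6946], ![8803, 1, 30972, 5970, 40453, 5689],
    ![31954, 30972, 1, 29147, 62991, 29192], ![6934, 5970, 29147, 1, 38586, 283],
    ![41286, 40453, 62991, 38586, 1, 38655], ![6946, 5689, 29192, 283, 38655, 1]]

lemma dist_eq (i j : Fin 6) : dist (p i) (p j) = Real.sqrt (N i j) := by
  rw [EuclideanSpace.dist_eq]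
  congr 1
  simp only [Fin.sum_univ_three, p, N, Real.dist_eq, sq_abs]
  push_cast
  ring

lemma hU : ∀ i j, 0 ≤ U i j ∧ 40000 * N i j ≤ U i j ^ 2 := by decide

lemma hL : ∀ i, L i ^ 2 ≤ 40000 * N i (s i) := by decide

lemma hy : ∀ i j, j ≠ i → j ≠ s i → U i j - y j ≤ L i - y (s i) := by decide

lemma hN : ∀ i j, i ≠ j → 0 < N i j := by decide

lemma dist_le (i j : Fin 6) : 200 * dist (p i) (p j) ≤ U i j := by
  obtain ⟨h0, h1⟩ := hU i j
  have h0' : (0 : ℝ) ≤ U i j := by exact_mod_cast h0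
  have h1' : (40000 : ℝ) * N i j ≤ (U i j : ℝ) ^ 2 := by exact_mod_cast h1
  rw [dist_eq]
  have : Real.sqrt (N i j) ≤ (U i j : ℝ) / 200 := by
    apply Real.sqrt_le_iff.mpr
    refine ⟨by positivity, ?_⟩
    nlinarith
  linarith

lemma le_dist (i : Fin 6) : (L i : ℝ) ≤ 200 * dist (p i) (p (s i)) := by
  have h1' : (L i : ℝ) ^ 2 ≤ (40000 : ℝ) * N i (s i) := by exact_mod_cast hL i
  rw [dist_eq]
  have : (L i : ℝ) / 200 ≤ Real.sqrt (N i (s i)) := by
    apply Real.le_sqrt_of_sq_le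
    nlinarith
  linarith

lemma p_inj : Function.Injective p := by
  intro i j h
  by_contra hij
  have h1 : dist (p i) (p j) = 0 := by rw [h, dist_self]
  rw [dist_eq] at h1
  have h2 : (0 : ℝ) < N i j := by exact_mod_cast hN i j hij
  exact (Real.sqrt_pos.mpr h2).ne' h1

lemma maxsum (τ : Equiv.Perm (Fin 6)) (hτ : ∀ i, τ i ≠ i) :
    ∑ i, dist (p i) (p (τ i)) ≤ ∑ i, dist (p i) (p (σ i)) := by
  have key : ∀ i, 200 * dist (p i) (p (τ i)) - y (τ i) ≤
      200 * dist (p i) (p (σ i)) - y (σ i) := by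
    intro i
    by_cases h : τ i = s i
    · rw [h]
      exact le_rfl
    · have h1 := dist_le i (τ i)
      have h2 := le_dist i
      have h3 : (U i (τ i) : ℝ) - y (τ i) ≤ L i - y (s i) := by exact_mod_cast hy i (τ i) (hτ i) h
      show _ ≤ 200 * dist (p i) (p (s i)) - y (s i)
      linarith
  have hs := Finset.sum_le_sum (fun i (_ : i ∈ Finset.univ) => key i)
  rw [Finset.sum_sub_distrib, Finset.sum_sub_distrib, ← Finset.mul_sum, ← Finset.mul_sum,
    Equiv.sum_comp τ (fun j => (y j : ℝ)), Equiv.sum_comp σ (fun j => (y j : ℝ))] at hs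
  linarith

lemma ball_ineq {a b x : EuclideanSpace ℝ (Fin 3)}
    (h : dist x (midpoint ℝ a b) ≤ dist a b / 2) :
    (x 0 - a 0) * (x 0 - b 0) + (x 1 - a 1) * (x 1 - b 1) + (x 2 - a 2) * (x 2 - b 2) ≤ 0 := by
  have h0 : 0 ≤ dist x (midpoint ℝ a b) := dist_nonneg
  have h1 : dist x (midpoint ℝ a b) ^ 2 ≤ (dist a b / 2) ^ 2 := pow_le_pow_left₀ h0 h 2
  rw [div_pow, EuclideanSpace.dist_sq_eq, EuclideanSpace.dist_sq_eq] at h1
  simp only [Fin.sum_univ_three, Real.dist_eq, sq_abs, midpoint_eq_smul_add, PiLp.smul_apply,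
    PiLp.add_apply, smul_eq_mul, invOf_eq_inv] at h1
  nlinarith

lemma no_common (x : EuclideanSpace ℝ (Fin 3)) :
    ¬ ∀ i, dist x (midpoint ℝ (p i) (p (σ i))) ≤ dist (p i) (p (σ i)) / 2 := by
  intro h
  have h0 := ball_ineq (h 0)
  have h2 := ball_ineq (h 2)
  have h4 := ball_ineq (h 4)
  have e0 : σ 0 = 1 := rfl
  have e2 : σ 2 = 3 := rfl
  have e4 : σ 4 = 5 := rfl
  rw [e0] at h0
  rw [e2] at h2
  rw [e4] at h4
  simp [p, P] at h0 h2 h4
  nlinarith [sq_nonneg (10 * x 0 + 170), sq_nonneg (10 * x 1 + 193), sq_nonneg (10 * x 2 - 33)]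

end Pool.Agent.H711Z.MaxSum
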