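import Mathlib

/-!
An interval of integers with one hole has exponentially many maximally repeated patterns.
-/

set_option autoImplicit false

namespace Pool.Agent.H711Z.Patterns

open Finset

/-- the interval from `0` to `4 m` with the hole `2 m` -/
noncomputable def XX (m : ℕ) : Finset ℝ :=
  ((range (4 * m + 1)).erase (2 * m)).image (fun a : ℕ => (a : ℝ))

/-- the interval from `0` to `3 m` with the holes `m`, `2 m` and those in `H` -/
noncomputable def AA (m : ℕ) (H : Finset ℕ) : Finset ℝ :=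
  (range (3 * m + 1) \ insert m (insert (2 * m) H)).image (fun a : ℕ => (a : ℝ))

lemma mem_XX {m : ℕ} {x : ℝ} : x ∈ XX m ↔ ∃ a : ℕ, (a ≠ 2 * m ∧ a ≤ 4 * m) ∧ (a : ℝ) = x := by
  simp [XX, Nat.lt_succ_iff]

lemma mem_AA {m : ℕ} {H : Finset ℕ} {x : ℝ} : x ∈ AA m H ↔
    ∃ a : ℕ, (a ≤ 3 * m ∧ a ∉ insert m (insert (2 * m) H)) ∧ (a : ℝ) = x := by
  simp only [AA, mem_image, mem_sdiff, mem_range, Nat.lt_succ_iff]

lemma shift {m : ℕ} {H : Finset ℕ} (hH : H ⊆ Ioo m (2 * m)) {h : ℕ}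
    (hh : h ∈ insert m (insert (2 * m) H)) :
    (AA m H).image (· + ((2 * m - h : ℕ) : ℝ)) ⊆ XX m := by
  have h1 : m ≤ h ∧ h ≤ 2 * m := by
    rcases mem_insert.mp hh with h2 | h2
    · omega
    rcases mem_insert.mp h2 with h2 | h2
    · omega
    · have := mem_Ioo.mp (hH h2)
      omega
  intro x hx
  obtain ⟨y, hy, rfl⟩ := mem_image.mp hx
  obtain ⟨a, ⟨ha1, ha2⟩, rfl⟩ := mem_AA.mp hy
  have h3 : a ≠ h := fun h4 => ha2 (h4 ▸ hh)
  exact mem_XX.mpr ⟨a + (2 * m - h), ⟨by omega, by omega⟩, by rw [Nat.cast_add]⟩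

lemma zero_mem {m : ℕ} (hm : 0 < m) {H : Finset ℕ} (hH : H ⊆ Ioo m (2 * m)) :
    (0 : ℝ) ∈ AA m H := by
  refine mem_AA.mpr ⟨0, ⟨by omega, fun h => ?_⟩, by simp⟩
  rcases mem_insert.mp h with h2 | h2
  · omega
  rcases mem_insert.mp h2 with h2 | h2
  · omega
  · have := mem_Ioo.mp (hH h2)
    omega

lemma nonneg {m : ℕ} {H : Finset ℕ} {x : ℝ} (hx : x ∈ AA m H) : 0 ≤ x := by
  obtain ⟨a, -, rfl⟩ := mem_AA.mp hx
  positivity

lemma maximal {m : ℕ} {H : Finset ℕ} (hH : H ⊆ Ioo m (2 * m)) (B : Finset ℝ)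
    (hB : ∀ t : ℝ, (AA m H).image (· + t) ⊆ XX m → B.image (· + t) ⊆ XX m) : B ⊆ AA m H := by
  intro b hb
  have key : ∀ h ∈ insert m (insert (2 * m) H), b + ((2 * m - h : ℕ) : ℝ) ∈ XX m :=
    fun h hh => hB _ (shift hH hh) (mem_image_of_mem _ hb)
  have h0 := key (2 * m) (by simp)
  simp only [Nat.sub_self, Nat.cast_zero, add_zero] at h0
  obtain ⟨a, -, rfl⟩ := mem_XX.mp h0
  have key2 : ∀ h ∈ insert m (insert (2 * m) H),
      a + (2 * m - h) ≠ 2 * m ∧ a + (2 * m - h) ≤ 4 * m := by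
    intro h hh
    obtain ⟨c, hc, h1⟩ := mem_XX.mp (key h hh)
    have : c = a + (2 * m - h) := by exact_mod_cast h1
    exact this ▸ hc
  refine mem_AA.mpr ⟨a, ⟨?_, fun h => ?_⟩, rfl⟩
  · have := key2 m (by simp)
    omega
  · have h1 := key2 a h
    rcases mem_insert.mp h with h2 | h2
    · omega
    rcases mem_insert.mp h2 with h2 | h2
    · omega
    · have := mem_Ioo.mp (hH h2)
      omega

lemma inj {m : ℕ} : Set.InjOn (AA m) (Ioo m (2 * m)).powerset := by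
  have key : ∀ H K : Finset ℕ, H ⊆ Ioo m (2 * m) → AA m H = AA m K → H ⊆ K := by
    intro H K hH h a ha
    have h1 := mem_Ioo.mp (hH ha)
    by_contra haK
    have h2 : (a : ℝ) ∈ AA m K := by
      refine mem_AA.mpr ⟨a, ⟨by omega, ?_⟩, rfl⟩
      simp only [mem_insert, not_or]
      exact ⟨by omega, by omega, haK⟩
    rw [← h] at h2
    obtain ⟨c, hc, h3⟩ := mem_AA.mp h2
    have : c = a := by exact_mod_cast h3
    exact hc.2 (this ▸ mem_insert_of_mem (mem_insert_of_mem ha))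
  intro H hH K hK h
  exact Subset.antisymm (key H K (mem_powerset.mp hH) h) (key K H (mem_powerset.mp hK) h.symm)

lemma card_XX (m : ℕ) : (XX m).card ≤ 4 * m + 1 :=
  card_image_le.trans (card_erase_le.trans (by simp))

lemma sq_lt (n : ℕ) : (n + 5) ^ 2 < 2 ^ (n + 5) := by
  induction n with
  | zero => norm_num
  | succ n ih =>
    have : 2 ^ (n + 1 + 5) = 2 * 2 ^ (n + 5) := by ring
    rw [this]
    have h2 : (n + 1 + 5) ^ 2 ≤ 2 * (n + 5) ^ 2 := by
      have e1 : 2 * (n + 5) ^ 2 = (n + 1 + 5) ^ 2 + (n ^ 2 + 8 * n + 14) := by ring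
      omega
    omega

/-- For every `m ≥ 1` the set `XX m` of at most `4 m + 1` reals has `2 ^ (m - 1)` pairwise
non-translate maximally repeated patterns. -/
theorem main (m : ℕ) (hm : 0 < m) : ∃ S : Finset (Finset ℝ),
    (∀ A ∈ S, A.Nonempty ∧ A ⊆ XX m ∧ (∃ t : ℝ, t ≠ 0 ∧ A.image (· + t) ⊆ XX m) ∧
      (∀ B : Finset ℝ, A ⊂ B →
        ¬ (∀ t : ℝ, A.image (· + t) ⊆ XX m → B.image (· + t) ⊆ XX m))) ∧
    (∀ A ∈ S, ∀ B ∈ S, ∀ t : ℝ, B = A.image (· + t) → A = B) ∧ S.card = 2 ^ (m - 1) := by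
  refine ⟨(Ioo m (2 * m)).powerset.image (AA m), ?_, ?_, ?_⟩
  · intro A hA
    obtain ⟨H, hH, rfl⟩ := mem_image.mp hA
    have hH' := mem_powerset.mp hH
    refine ⟨⟨0, zero_mem hm hH'⟩, ?_, ⟨((2 * m - m : ℕ) : ℝ), ?_, shift hH' (by simp)⟩, ?_⟩
    · have := shift hH' (h := 2 * m) (by simp)
      simpa using this
    · have : 2 * m - m ≠ 0 := by omega
      exact_mod_cast this
    · intro B hB h
      exact hB.2 (maximal hH' B h)
  · intro A hA B hB t h
    obtain ⟨H, hH, rfl⟩ := mem_image.mp hA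
    obtain ⟨K, hK, rfl⟩ := mem_image.mp hB
    have h1 : (0 : ℝ) + t ∈ AA m K := h ▸ mem_image_of_mem _ (zero_mem hm (mem_powerset.mp hH))
    have h2 := zero_mem hm (mem_powerset.mp hK)
    rw [h] at h2
    obtain ⟨y, hy, h3⟩ := mem_image.mp h2
    have h4 := nonneg h1
    have h5 := nonneg hy
    have h6 : t = 0 := by linarith
    rw [h, h6]
    simp
  · rw [card_image_of_injOn inj, card_powerset, Nat.card_Ioo]
    congr 1
    omega

end Pool.Agent.H711Z.Patterns
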